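import Pool.Agent.Lib.MP_6b2d39_agWin.Hex
import Pool.Agent.Lib.MP_6b2d39_agCr.CoordVan
import Pool.Agent.Lib.MP_6b2d39_agCr.Ord

open Polynomial

set_option autoImplicit false

namespace Pool.Agent.Lib.MP_6b2d39_agWin

open Pool.Agent.Lib.MP_6b2d39_ag Pool.Agent.Lib.MP_6b2d39_ag.Rel Pool.Agent.Lib.MP_6b2d39_agCr

/-- dehomogenisation -/
noncomputable def dehX : MvPolynomial (Fin 3) ℂ →+* ℂ[X][X] :=
  MvPolynomial.eval₂Hom (C.comp C) ![X, C X, 1]

theorem ToCurves_colH (n a : ℕ) : colH (Finset.Icc 1 n) a = n - a := by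
  unfold colH
  have : (Finset.Icc 1 n).filter (fun s => a < s) = Finset.Ioc a n := by
    ext s
    simp only [Finset.mem_filter, Finset.mem_Icc, Finset.mem_Ioc]
    omega
  rw [this, Nat.card_Ioc]

/-- multiplicity ideal in the bivariate ring -/
def ToCurves_ideal (n : ℕ) (y : ℂ) : Ideal ℂ[X][X] where
  carrier := {g | ∀ a, (X - C y) ^ (n - a) ∣ g.coeff a}
  add_mem' := by
    intro f g hf hg a
    rw [coeff_add]
    exact dvd_add (hf a) (hg a)
  zero_mem' := by
    intro a
    simp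
  smul_mem' := by
    intro c f hf a
    rw [smul_eq_mul, coeff_mul]
    refine Finset.dvd_sum fun p hp => ?_
    have h := Finset.HasAntidiagonal.mem_antidiagonal.1 hp
    exact dvd_mul_of_dvd_right (dvd_trans (pow_dvd_pow _ (by omega)) (hf p.2)) _

theorem ToCurves_mem {n : ℕ} {y : ℂ} {g : ℂ[X][X]} :
    g ∈ ToCurves_ideal n y ↔ ∀ a, (X - C y) ^ (n - a) ∣ g.coeff a := Iff.rfl

theorem ToCurves_mul {n : ℕ} {y : ℂ} {f g : ℂ[X][X]} (hf : f ∈ ToCurves_ideal n y)
    (hg : g ∈ ToCurves_ideal 1 y) : f * g ∈ ToCurves_ideal (n + 1) y := by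
  intro a
  rw [coeff_mul]
  refine Finset.dvd_sum fun p hp => ?_
  have h := Finset.HasAntidiagonal.mem_antidiagonal.1 hp
  have h2 : (X - C y) ^ ((n - p.1) + (1 - p.2)) ∣ f.coeff p.1 * g.coeff p.2 := by
    rw [pow_add]
    exact mul_dvd_mul (hf p.1) (hg p.2)
  exact dvd_trans (pow_dvd_pow _ (by omega)) h2

theorem ToCurves_taylor_mul (r : ℂ[X]) (f g : ℂ[X][X]) :
    taylor r (f * g) = taylor r f * taylor r g := taylor_mul r f g

/-- dehomogenisation followed by the translation -/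
noncomputable def ToCurves_phi (x : ℂ) : MvPolynomial (Fin 3) ℂ →+* ℂ[X][X] where
  toFun F := taylor (C x) (dehX F)
  map_one' := by simp
  map_zero' := by simp
  map_add' := by intro a b; simp
  map_mul' := by intro a b; rw [map_mul, taylor_mul]

theorem ToCurves_phi_apply (x : ℂ) (F : MvPolynomial (Fin 3) ℂ) :
    ToCurves_phi x F = taylor (C x) (dehX F) := rfl

theorem ToCurves_eval (x y : ℂ) (F : MvPolynomial (Fin 3) ℂ) :
    (((dehX F).eval (C x)).eval y) = MvPolynomial.eval ![x, y, 1] F := by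
  have h : ((evalRingHom y).comp ((evalRingHom (C x : ℂ[X])).comp dehX)) =
      (MvPolynomial.eval ![x, y, 1] : MvPolynomial (Fin 3) ℂ →+* ℂ) := by
    apply MvPolynomial.ringHom_ext
    · intro r
      simp [dehX]
    · intro i
      fin_cases i <;> simp [dehX]
  have := congrArg (fun φ : MvPolynomial (Fin 3) ℂ →+* ℂ => φ F) h
  simpa using this

theorem ToCurves_phi_mem {x y : ℂ} {F : MvPolynomial (Fin 3) ℂ}
    (h : MvPolynomial.eval ![x, y, 1] F = 0) : ToCurves_phi x F ∈ ToCurves_ideal 1 y := by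
  intro a
  rcases Nat.eq_zero_or_pos a with rfl | ha
  · rw [ToCurves_phi_apply, taylor_coeff_zero, Nat.sub_zero, pow_one, dvd_iff_isRoot, IsRoot.def,
      ToCurves_eval, h]
  · have : 1 - a = 0 := by omega
    rw [this, pow_zero]
    exact one_dvd _

theorem ToCurves_phi_pow {x y : ℂ} (n : ℕ) :
    (RingHom.ker (MvPolynomial.eval ![x, y, 1] : MvPolynomial (Fin 3) ℂ →+* ℂ)) ^ n ≤
      (ToCurves_ideal n y).comap (ToCurves_phi x) := by
  induction n with
  | zero =>
    intro F _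
    rw [Ideal.mem_comap, ToCurves_mem]
    intro a
    simp
  | succ n ih =>
    rw [pow_succ]
    refine Ideal.mul_le.2 fun f hf g hg => ?_
    rw [Ideal.mem_comap, map_mul]
    exact ToCurves_mul (ih hf) (ToCurves_phi_mem ((RingHom.mem_ker).1 hg))

theorem cond_dehX {F : MvPolynomial (Fin 3) ℂ} {n : ℕ} {x y : ℂ} (h : Van n ![x, y, 1] F) :
    Cond (Finset.Icc 1 n) x y (dehX F) := by
  intro a
  rw [ToCurves_colH]
  exact ToCurves_phi_pow n h a

theorem ToCurves_coeff (F : MvPolynomial (Fin 3) ℂ) (i j : ℕ) :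
    ((dehX F).coeff i).coeff j =
      ∑ u ∈ F.support, if u 0 = i ∧ u 1 = j then MvPolynomial.coeff u F else 0 := by
  have h : dehX F = ∑ u ∈ F.support,
      (C (C (MvPolynomial.coeff u F)) : ℂ[X][X]) * (X ^ (u 0) * (C X) ^ (u 1)) := by
    rw [dehX, MvPolynomial.coe_eval₂Hom, MvPolynomial.eval₂_eq']
    refine Finset.sum_congr rfl fun u _ => ?_
    simp [Fin.prod_univ_three]
  rw [h, finsetSum_coeff, finsetSum_coeff]
  refine Finset.sum_congr rfl fun u _ => ?_
  rw [coeff_C_mul, ← C_pow, mul_comm (X ^ (u 0)), coeff_C_mul, coeff_C_mul, coeff_X_pow]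
  by_cases h0 : i = u 0
  · rw [if_pos h0, mul_one, coeff_X_pow]
    by_cases h1 : j = u 1
    · rw [if_pos h1, if_pos ⟨h0.symm, h1.symm⟩, mul_one]
    · rw [if_neg h1, if_neg (fun h => h1 h.2.symm), mul_zero]
  · rw [if_neg h0, mul_zero, coeff_zero, mul_zero, if_neg (fun h => h0 h.1.symm)]

theorem ToCurves_deg {F : MvPolynomial (Fin 3) ℂ} {d : ℕ} (hF : F.IsHomogeneous d)
    {u : Fin 3 →₀ ℕ} (hu : u ∈ F.support) : u 0 + u 1 + u 2 = d := by
  have h := hF (MvPolynomial.mem_support_iff.1 hu)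
  rw [Finsupp.weight_apply, Finsupp.sum_fintype _ _ (by simp)] at h
  simpa [Fin.sum_univ_three] using h

theorem supp_dehX {F : MvPolynomial (Fin 3) ℂ} {d : ℕ} {a : Fin 3 → ℕ} (hF : F.IsHomogeneous d)
    (ha : ∀ t, Van (a t) (Pi.single t 1) F) : SuppP (hex d a) (dehX F) := by
  intro i j hij
  rw [ToCurves_coeff]
  refine Finset.sum_eq_zero fun u hu => ?_
  rw [if_neg]
  rintro ⟨rfl, rfl⟩
  apply hij
  rw [mem_hex]
  have h0 := (van_single_iff hF (a 0) 0).1 (ha 0) u hu
  have h1 := (van_single_iff hF (a 1) 1).1 (ha 1) u hu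
  have h2 := (van_single_iff hF (a 2) 2).1 (ha 2) u hu
  have h3 := ToCurves_deg hF hu
  refine ⟨h0, h1, by omega, by omega⟩

theorem dehX_eq_zero {F : MvPolynomial (Fin 3) ℂ} {d : ℕ} (hF : F.IsHomogeneous d)
    (h : dehX F = 0) : F = 0 := by
  by_contra hne
  obtain ⟨w, hw⟩ : F.support.Nonempty := by
    rw [Finset.nonempty_iff_ne_empty]
    exact fun h0 => hne (MvPolynomial.support_eq_empty.1 h0)
  have h1 := ToCurves_coeff F (w 0) (w 1)
  rw [h, coeff_zero, coeff_zero, Finset.sum_eq_single w] at h1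
  · rw [if_pos ⟨rfl, rfl⟩] at h1
    exact (MvPolynomial.mem_support_iff.1 hw) h1.symm
  · intro u hu huw
    rw [if_neg]
    rintro ⟨h2, h3⟩
    apply huw
    have h4 := ToCurves_deg hF hu
    have h5 := ToCurves_deg hF hw
    ext t
    fin_cases t
    · exact h2
    · exact h3
    · show u 2 = w 2
      omega
  · intro h2
    exact absurd hw h2

open Classical in
/-- the configuration of base points -/
noncomputable def ToCurves_P {h : ℕ} (τ : Fin 3 ↪ Fin h) (x y : Fin h → ℂ) : Fin h → Fin 3 → ℂ :=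
  fun l => if hl : ∃ t, τ t = l then Pi.single hl.choose 1 else ![x l, y l, 1]

theorem ToCurves_P_on {h : ℕ} (τ : Fin 3 ↪ Fin h) (x y : Fin h → ℂ) (t : Fin 3) :
    ToCurves_P τ x y (τ t) = Pi.single t 1 := by
  have hl : ∃ s, τ s = τ t := ⟨t, rfl⟩
  unfold ToCurves_P
  rw [dif_pos hl, τ.injective hl.choose_spec]

theorem ToCurves_P_off {h : ℕ} (τ : Fin 3 ↪ Fin h) (x y : Fin h → ℂ) {l : Fin h}
    (hl : ¬ ∃ s, τ s = l) : ToCurves_P τ x y l = ![x l, y l, 1] := by
  unfold ToCurves_P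
  rw [dif_neg hl]

/-- a configuration with small dimension -/
theorem exists_config {h d u : ℕ} {m : Fin h → ℕ} (τ : Fin 3 ↪ Fin h)
    (hE : EmpP (ι := Fin h ⊕ Fin u) (hex d (fun t => m (τ t))) (Sum.elim m (fun _ => 1))
      (Finset.univ.filter (fun i => ∀ t, i ≠ Sum.inl (τ t)))) :
    ∃ P₀ : Fin h → Fin 3 → ℂ, Module.finrank ℂ (curves d m P₀) ≤ u := by
  obtain ⟨x, y, -, -, hE⟩ := hE
  refine ⟨ToCurves_P τ (fun l => x (Sum.inl l)) (fun l => y (Sum.inl l)), ?_⟩
  set P₀ := ToCurves_P τ (fun l => x (Sum.inl l)) (fun l => y (Sum.inl l)) with hP₀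
  let f : curves d m P₀ →ₗ[ℂ] (Fin u → ℂ) :=
    { toFun := fun F k => MvPolynomial.eval ![x (Sum.inr k), y (Sum.inr k), 1] F.1
      map_add' := by intro F G; ext k; simp
      map_smul' := by intro c F; ext k; simp [MvPolynomial.smul_eval] }
  have hf : Function.Injective f := by
    rw [← LinearMap.ker_eq_bot, LinearMap.ker_eq_bot']
    rintro ⟨F, hF⟩ h0
    obtain ⟨hF1, hF2⟩ := mem_curves.1 hF
    have h1 : dehX F = 0 := by
      apply hE
      · apply supp_dehX hF1
        intro t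
        have := hF2 (τ t)
        rwa [hP₀, ToCurves_P_on] at this
      · intro i hi
        rw [Finset.mem_filter] at hi
        rcases i with l | k
        · have hl : ¬ ∃ s, τ s = l := by
            rintro ⟨s, rfl⟩
            exact hi.2 s rfl
          have := hF2 l
          rw [hP₀, ToCurves_P_off _ _ _ hl] at this
          exact cond_dehX this
        · have h2 : MvPolynomial.eval ![x (Sum.inr k), y (Sum.inr k), 1] F = 0 := congrFun h0 k
          exact cond_dehX (van_one_iff.2 h2)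
    exact Subtype.ext (dehX_eq_zero hF1 h1)
  have h3 := LinearMap.finrank_le_finrank_of_injective hf
  simpa using h3

/-- three points only -/
theorem exists_config_three {h d : ℕ} {m : Fin h → ℕ} (τ : Fin 3 ↪ Fin h)
    (h0 : ∀ l, (¬ ∃ t, τ t = l) → m l = 0) :
    ∃ P₀ : Fin h → Fin 3 → ℂ,
      Module.finrank ℂ (curves d m P₀) ≤ (hex d (fun t => m (τ t))).card := by
  have _ := h0
  refine ⟨ToCurves_P τ 0 0, ?_⟩
  set P₀ := ToCurves_P τ 0 0 with hP₀
  let f : curves d m P₀ →ₗ[ℂ] ((hex d (fun t => m (τ t))) → ℂ) :=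
    { toFun := fun F p => ((dehX F.1).coeff p.1.1).coeff p.1.2
      map_add' := by intro F G; ext k; simp
      map_smul' := by
        intro c F
        ext k
        simp only [Submodule.coe_smul, MvPolynomial.smul_eq_C_mul, map_mul, RingHom.id_apply,
          Pi.smul_apply, smul_eq_mul]
        have : dehX (MvPolynomial.C c) = C (C c) := by simp [dehX]
        rw [this, coeff_C_mul, coeff_C_mul] }
  have hf : Function.Injective f := by
    rw [← LinearMap.ker_eq_bot, LinearMap.ker_eq_bot']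
    rintro ⟨F, hF⟩ h0
    obtain ⟨hF1, hF2⟩ := mem_curves.1 hF
    have hs : SuppP (hex d (fun t => m (τ t))) (dehX F) := by
      apply supp_dehX hF1
      intro t
      have := hF2 (τ t)
      rwa [hP₀, ToCurves_P_on] at this
    have h1 : dehX F = 0 := by
      ext i j
      rw [coeff_zero, coeff_zero]
      by_cases hij : (i, j) ∈ hex d (fun t => m (τ t))
      · exact congrFun h0 ⟨(i, j), hij⟩
      · exact hs i j hij
    exact Subtype.ext (dehX_eq_zero hF1 h1)
  have h3 := LinearMap.finrank_le_finrank_of_injective hf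
  simpa using h3

end Pool.Agent.Lib.MP_6b2d39_agWin
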