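import Pool.Agent.Lib.MP_6b2d39_agWin.Defs

set_option autoImplicit false

namespace Pool.Agent.Lib.MP_6b2d39_agWin

private theorem choose_le_sq {k μ : ℕ} (h : k ≤ μ) : (k + 1).choose 2 ≤ μ ^ 2 := by
  rw [Nat.choose_two_right]
  apply Nat.div_le_of_le_mul
  rcases Nat.eq_zero_or_pos k with rfl | hk
  · simp
  · have h1 : k + 1 ≤ 2 * μ := by omega
    have h2 : (k + 1) * (k + 1 - 1) ≤ (2 * μ) * μ := by
      rw [Nat.add_sub_cancel]
      exact Nat.mul_le_mul h1 h
    calc (k + 1) * (k + 1 - 1) ≤ (2 * μ) * μ := h2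
      _ = 2 * μ ^ 2 := by ring

private theorem mass_insert {ι : Type} [DecidableEq ι] {m : ι → ℕ} {J : Finset ι} {a : ι}
    (ha : a ∉ J) : mass m (insert a J) = (m a + 1).choose 2 + mass m J := by
  unfold mass
  rw [Finset.sum_insert ha]

private theorem mass_sdiff {ι : Type} [DecidableEq ι] {m : ι → ℕ} {G J : Finset ι} (h : G ⊆ J) :
    mass m (J \ G) + mass m G = mass m J := by
  unfold mass
  exact Finset.sum_sdiff h

private theorem exists_ge {ι : Type} [DecidableEq ι] {m : ι → ℕ} {μ : ℕ} (J : Finset ι) :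
    (∀ j ∈ J, m j ≤ μ) → ∀ A ≤ mass m J, ∃ G ⊆ J, A ≤ mass m G ∧ mass m G ≤ A + μ ^ 2 := by
  induction J using Finset.induction_on with
  | empty =>
    intro _ A hA
    refine ⟨∅, le_refl _, hA, ?_⟩
    simp [mass]
  | insert a J ha ih =>
    intro hJ A hA
    rcases le_or_gt A (mass m J) with h1 | h1
    · obtain ⟨G, hG, h2, h3⟩ := ih (fun j hj => hJ j (Finset.mem_insert_of_mem hj)) A h1
      exact ⟨G, hG.trans (Finset.subset_insert _ _), h2, h3⟩
    · refine ⟨insert a J, le_refl _, hA, ?_⟩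
      rw [mass_insert ha]
      have := choose_le_sq (hJ a (Finset.mem_insert_self _ _))
      omega

private theorem exists_le {ι : Type} [DecidableEq ι] {m : ι → ℕ} {μ : ℕ} (J : Finset ι) :
    (∀ j ∈ J, m j ≤ μ) → ∀ A, ∃ G ⊆ J, mass m G ≤ A ∧ (G = J ∨ A ≤ mass m G + μ ^ 2) := by
  induction J using Finset.induction_on with
  | empty =>
    intro _ A
    refine ⟨∅, le_refl _, ?_, Or.inl rfl⟩
    simp [mass]
  | insert a J ha ih =>
    intro hJ A
    obtain ⟨G, hG, h2, h3⟩ := ih (fun j hj => hJ j (Finset.mem_insert_of_mem hj)) A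
    rcases h3 with h3 | h3
    · subst h3
      rcases le_or_gt (mass m (insert a G)) A with h4 | h4
      · exact ⟨insert a G, le_refl _, h4, Or.inl rfl⟩
      · refine ⟨G, Finset.subset_insert _ _, h2, Or.inr ?_⟩
        rw [mass_insert ha] at h4
        have := choose_le_sq (hJ a (Finset.mem_insert_self _ _))
        omega
    · exact ⟨G, hG.trans (Finset.subset_insert _ _), h2, Or.inr h3⟩

theorem split_neg {ι : Type} [DecidableEq ι] {m : ι → ℕ} {μ : ℕ} {J : Finset ι}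
    (hJ : ∀ j ∈ J, m j ≤ μ) {A B : ℕ} (h : A + B + μ ^ 2 ≤ mass m J) :
    ∃ G ⊆ J, A ≤ mass m G ∧ B ≤ mass m (J \ G) := by
  obtain ⟨G, hG, h1, h2⟩ := exists_ge J hJ A (by omega)
  refine ⟨G, hG, h1, ?_⟩
  have := mass_sdiff (m := m) hG
  omega

theorem split_pos {ι : Type} [DecidableEq ι] {m : ι → ℕ} {μ : ℕ} {J : Finset ι}
    (hJ : ∀ j ∈ J, m j ≤ μ) {A B : ℕ} (h : mass m J + μ ^ 2 ≤ A + B) :
    ∃ G ⊆ J, mass m G ≤ A ∧ mass m (J \ G) ≤ B := by
  obtain ⟨G, hG, h1, h2⟩ := exists_le J hJ A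
  refine ⟨G, hG, h1, ?_⟩
  rcases h2 with h2 | h2
  · subst h2
    simp [mass]
  · have := mass_sdiff (m := m) hG
    omega

end Pool.Agent.Lib.MP_6b2d39_agWin
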