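import Pool.Agent.Lib.MP_6b2d39_agWin.Emp

/-!
Polynomials supported on a finite set `P` of exponents as functions `P → R`, and the conditions of
a fat point as linear equations.
-/

open Polynomial

set_option autoImplicit false

namespace Pool.Agent.Lib.MP_6b2d39_agWin

open Pool.Agent.Lib.MP_6b2d39_ag Pool.Agent.Lib.MP_6b2d39_ag.Rel

section lin

variable {R : Type*} [CommRing R] {P : Finset (ℕ × ℕ)}

/-- the polynomial with given coefficients -/
noncomputable def ofC (c : P → R) : R[X][X] :=
  ∑ i : P, monomial i.1.1 (monomial i.1.2 (c i))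

theorem coeff_ofC_self (c : P → R) (i : P) : ((ofC c).coeff i.1.1).coeff i.1.2 = c i := by
  classical
  rw [ofC, finsetSum_coeff, finsetSum_coeff, Finset.sum_eq_single i]
  · rw [coeff_monomial, if_pos rfl, coeff_monomial, if_pos rfl]
  · intro j _ hj
    rw [coeff_monomial]
    by_cases h1 : j.1.1 = i.1.1
    · rw [if_pos h1, coeff_monomial, if_neg]
      intro h2
      exact hj (Subtype.ext (Prod.ext h1 h2))
    · rw [if_neg h1, coeff_zero]
  · intro h
    exact absurd (Finset.mem_univ i) h

theorem suppP_ofC (c : P → R) : SuppP P (ofC c) := by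
  classical
  intro a b hab
  rw [ofC, finsetSum_coeff, finsetSum_coeff]
  refine Finset.sum_eq_zero fun i _ => ?_
  rw [coeff_monomial]
  by_cases h1 : i.1.1 = a
  · rw [if_pos h1, coeff_monomial, if_neg]
    intro h2
    apply hab
    have h3 : (a, b) = i.1 := Prod.ext h1.symm h2.symm
    rw [h3]
    exact i.2
  · rw [if_neg h1, coeff_zero]

theorem eq_ofC {f : R[X][X]} (hf : SuppP P f) :
    f = ofC (fun i : P => (f.coeff i.1.1).coeff i.1.2) := by
  classical
  ext a b
  by_cases h : (a, b) ∈ P
  · exact (coeff_ofC_self (fun i : P => (f.coeff i.1.1).coeff i.1.2) ⟨(a, b), h⟩).symm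
  · rw [hf a b h, suppP_ofC _ a b h]

theorem coeff_taylor_ofC (c : P → R) (x y : R) (a b : ℕ) :
    (taylor y ((taylor (C x) (ofC c)).coeff a)).coeff b =
      ∑ i : P, Transfer.entry x y a b i.1.1 i.1.2 * c i := by
  rw [ofC, map_sum, finsetSum_coeff, map_sum, finsetSum_coeff]
  exact Finset.sum_congr rfl fun i _ => Transfer.coeff_taylor_monomial _ _ _ _ _ _ _

theorem cond_iff {f : R[X][X]} (m : ℕ) (x y : R) :
    Cond (Finset.Icc 1 m) x y f ↔ ∀ a b, a + b < m →
      (taylor y ((taylor (C x) f).coeff a)).coeff b = 0 := by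
  constructor
  · intro h a b hab
    have h1 := h a
    rw [Transfer.colH_Icc, X_sub_C_pow_dvd_iff, ← taylor_apply, X_pow_dvd_iff] at h1
    exact h1 b (by omega)
  · intro h a
    rw [Transfer.colH_Icc, X_sub_C_pow_dvd_iff, ← taylor_apply, X_pow_dvd_iff]
    intro b hb
    exact h a b (by omega)

theorem cond_ofC_iff (c : P → R) (m : ℕ) (x y : R) :
    Cond (Finset.Icc 1 m) x y (ofC c) ↔ ∀ a b, a + b < m →
      ∑ i : P, Transfer.entry x y a b i.1.1 i.1.2 * c i = 0 := by
  rw [cond_iff]
  simp only [coeff_taylor_ofC]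

end lin

/-- scaling of the first coordinate -/
theorem entry_scale (s x y : ℂ) (a b i j : ℕ) :
    s ^ a * Transfer.entry (s * x) y a b i j = s ^ i * Transfer.entry x y a b i j := by
  unfold Transfer.entry
  by_cases h : a ≤ i
  · rw [mul_pow]
    have h1 : s ^ i = s ^ a * s ^ (i - a) := by
      rw [← pow_add]
      congr 1
      omega
    rw [h1]
    ring
  · rw [Nat.choose_eq_zero_of_lt (by omega)]
    simp

end Pool.Agent.Lib.MP_6b2d39_agWin
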