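import Pool.Agent.Lib.MP_6b2d39_agWin.Spec
import Pool.Agent.Lib.MP_6b2d39_ag.Rel.RowN

open Polynomial

set_option autoImplicit false

namespace Pool.Agent.Lib.MP_6b2d39_agWin

open Pool.Agent.Lib.MP_6b2d39_agArr Pool.Agent.Lib.MP_6b2d39_ag
  Pool.Agent.Lib.MP_6b2d39_ag.Rel

/-- the row number `j` of `P` -/
def rowOf (P : Finset (ℕ × ℕ)) (j : ℕ) : Finset ℕ := (P.filter (fun p => p.2 = j)).image Prod.fst

private theorem mem_rowOf {P : Finset (ℕ × ℕ)} {a j : ℕ} : a ∈ rowOf P j ↔ (a, j) ∈ P := by
  unfold rowOf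
  rw [Finset.mem_image]
  constructor
  · rintro ⟨p, hp, rfl⟩
    rw [Finset.mem_filter] at hp
    obtain ⟨hp1, rfl⟩ := hp
    exact hp1
  · intro h
    exact ⟨(a, j), Finset.mem_filter.2 ⟨h, rfl⟩, rfl⟩

/-- number of rows which come before the row `b` -/
private def rnk (n : ℕ) (W : ℕ → ℤ) (b : ℕ) : ℕ :=
  ((Finset.range n).filter (fun b' => W b' < W b)).card

private theorem rnk_mono {n : ℕ} {W : ℕ → ℤ} {b c : ℕ} (h : W b ≤ W c) : rnk n W b ≤ rnk n W c := by
  unfold rnk
  apply Finset.card_le_card
  intro d hd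
  rw [Finset.mem_filter] at hd ⊢
  exact ⟨hd.1, hd.2.trans_le h⟩

private theorem rnk_lt {n : ℕ} {W : ℕ → ℤ} {b c : ℕ} (hb : b < n) (h : W b < W c) :
    rnk n W b < rnk n W c := by
  unfold rnk
  apply Finset.card_lt_card
  rw [Finset.ssubset_iff_of_subset]
  · refine ⟨b, ?_, ?_⟩
    · rw [Finset.mem_filter, Finset.mem_range]
      exact ⟨hb, h⟩
    · rw [Finset.mem_filter]
      exact fun h1 => lt_irrefl _ h1.2
  · intro d hd
    rw [Finset.mem_filter] at hd ⊢
    exact ⟨hd.1, hd.2.trans h⟩

private theorem exists_weights {ι : Type} [Fintype ι] (n : ℕ) (g : ℕ → ℤ) (q : ι → ℤ) :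
    ∃ (w : ℕ → ℕ) (v : ι → ℕ) (C : ℤ), ∀ j, ∀ b < n,
      ((w b + v j * b : ℕ) : ℤ) = g b + q j * b + C := by
  set A : ℤ := ∑ j, |q j| with hA
  set C : ℤ := ∑ b ∈ Finset.range n, |g b - A * b| with hC
  have h1 : ∀ j, 0 ≤ q j + A := by
    intro j
    have h2 : |q j| ≤ A :=
      Finset.single_le_sum (f := fun j => |q j|) (fun _ _ => abs_nonneg _) (Finset.mem_univ j)
    have h3 := neg_abs_le (q j)
    omega
  have h2 : ∀ b < n, 0 ≤ g b - A * b + C := by
    intro b hb
    have h2 : |g b - A * b| ≤ C :=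
      Finset.single_le_sum (f := fun b : ℕ => |g b - A * b|)
        (fun _ _ => abs_nonneg _) (Finset.mem_range.2 hb)
    have h3 := neg_abs_le (g b - A * b)
    omega
  refine ⟨fun b => (g b - A * b + C).toNat, fun j => (q j + A).toNat, C, ?_⟩
  intro j b hb
  rw [Nat.cast_add, Nat.cast_mul, Int.toNat_of_nonneg (h1 j), Int.toNat_of_nonneg (h2 b hb)]
  ring

private theorem goodP_of_rows {ι : Type} [Fintype ι] {m : ι → ℕ} {P : Finset (ℕ × ℕ)} (n : ℕ)
    (hP : ∀ p ∈ P, p.2 < n) (g : ℕ → ℤ) (q : ι → ℤ)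
    (hinj : ∀ i, ∀ b < n, ∀ b' < n, g b + q i * b = g b' + q i * b' → b = b')
    (hcap : ∀ b < n, (rowOf P b).card ≤ ∑ i, (m i - rnk n (fun b => g b + q i * b) b)) :
    GoodP ℂ P m := by
  obtain ⟨w, v, C, hwv⟩ := exists_weights n g q
  have hN : GoodN ℂ (rowOf P) m := by
    apply row_suppN n (rowOf P) _ m w v (fun i b => rnk n (fun b => g b + q i * b) b)
    · intro i b hb c hc hbc
      rcases lt_trichotomy (g b + q i * b) (g c + q i * c) with h1 | h1 | h1
      · exact absurd hbc (rnk_lt hb h1).ne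
      · exact hinj i b hb c hc h1
      · exact absurd hbc (rnk_lt hc h1).ne'
    · intro i b hb c hc hbc
      have h1 : g b + q i * b < g c + q i * c := by
        by_contra hne
        exact absurd (rnk_mono (n := n) (W := fun b => g b + q i * b) (not_lt.1 hne))
          (not_le.2 hbc)
      have h2 := hwv i b hb
      have h3 := hwv i c hc
      omega
    · exact hcap
    · intro b hb
      ext a
      rw [mem_rowOf]
      constructor
      · intro h
        exact absurd (hP _ h) (by simpa using hb)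
      · intro h
        exact absurd h (Finset.notMem_empty _)
  obtain ⟨K, _, φ, x, y, hx, hx0, hy0, H⟩ := hN
  refine ⟨K, _, φ, x, y, hx, hx0, hy0, ?_⟩
  intro f hf hc
  apply H f _ hc
  intro a b hab
  exact hf a b (fun h => hab (mem_rowOf.2 h))

/-- rows `c, c + 1, …, c + T - 1` -/
theorem empP_of_cert_up {ι : Type} [Fintype ι] [DecidableEq ι] {m : ι → ℕ} {J : Finset ι}
    {P : Finset (ℕ × ℕ)} {T c : ℕ} {D : ℕ → ℤ} (h : Cert m J T D)
    (hrow : ∀ b < T, ((rowOf P (c + b)).card : ℤ) ≤ D b)
    (hP : ∀ p ∈ P, c ≤ p.2 ∧ p.2 < c + T) : EmpP P m J := by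
  classical
  obtain ⟨e, p, h⟩ := h
  apply empP_of_goodP
  -- weights
  set A : ℤ := ∑ j, |((T : ℤ) + 1) * p j| with hA
  set H : ℤ := 1 + ∑ b ∈ Finset.range (c + T), |((T : ℤ) + 1) * e (b - c) + b| + A * (c + T)
    with hH
  have hA' : ∀ i, |((T : ℤ) + 1) * p i| ≤ A := fun i =>
    Finset.single_le_sum (f := fun j => |((T : ℤ) + 1) * p j|) (fun _ _ => abs_nonneg _)
      (Finset.mem_univ i)
  have hA0 : 0 ≤ A := Finset.sum_nonneg (fun _ _ => abs_nonneg _)
  have hlarge : ∀ i, ∀ b < c + T, ((T : ℤ) + 1) * e (b - c) + b + ((T : ℤ) + 1) * p i * b < H := by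
    intro i b hb
    have h1 : |((T : ℤ) + 1) * e (b - c) + b| ≤
        ∑ b ∈ Finset.range (c + T), |((T : ℤ) + 1) * e (b - c) + b| :=
      Finset.single_le_sum (f := fun b : ℕ => |((T : ℤ) + 1) * e (b - c) + b|)
        (fun _ _ => abs_nonneg _) (Finset.mem_range.2 hb)
    have h2 := le_abs_self (((T : ℤ) + 1) * e (b - c) + b)
    have h3 : ((T : ℤ) + 1) * p i * b ≤ A * (c + T) := by
      have h4 : ((T : ℤ) + 1) * p i ≤ A := (le_abs_self _).trans (hA' i)
      have h5 : (b : ℤ) ≤ c + T := by exact_mod_cast hb.le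
      calc ((T : ℤ) + 1) * p i * b ≤ A * b := mul_le_mul_of_nonneg_right h4 (by omega)
        _ ≤ A * (c + T) := mul_le_mul_of_nonneg_left h5 hA0
    omega
  have hsmall : ∀ i, ∀ b : ℕ, H ≤ H + (1 + A) * b + ((T : ℤ) + 1) * p i * b := by
    intro i b
    have h1 := (neg_abs_le (((T : ℤ) + 1) * p i))
    have h2 := hA' i
    have h3 : 0 ≤ (1 + A + ((T : ℤ) + 1) * p i) * b := mul_nonneg (by omega) (by omega)
    rw [add_mul] at h3
    omega
  apply goodP_of_rows (c + T) (fun p hp => (hP p hp).2)
    (fun b => if b < c then H + (1 + A) * b else ((T : ℤ) + 1) * e (b - c) + b)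
    (fun i => ((T : ℤ) + 1) * p i)
  · intro i b hb b' hb' hbb
    by_cases h1 : b < c
    · by_cases h2 : b' < c
      · rw [if_pos h1, if_pos h2] at hbb
        have h3 : (1 + A + ((T : ℤ) + 1) * p i) * ((b : ℤ) - b') = 0 := by linear_combination hbb
        rcases mul_eq_zero.1 h3 with h4 | h4
        · have h5 := (neg_abs_le (((T : ℤ) + 1) * p i))
          have h6 := hA' i
          omega
        · omega
      · rw [if_pos h1, if_neg h2] at hbb
        have h3 := hlarge i b' hb'
        have h4 := hsmall i b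
        omega
    · by_cases h2 : b' < c
      · rw [if_neg h1, if_pos h2] at hbb
        have h3 := hlarge i b hb
        have h4 := hsmall i b'
        omega
      · rw [if_neg h1, if_neg h2] at hbb
        have h3 : ((T : ℤ) + 1) * (e (b - c) + p i * b - e (b' - c) - p i * b') =
            (b' : ℤ) - b := by linear_combination hbb
        rcases lt_trichotomy (e (b - c) + p i * b - e (b' - c) - p i * b') 0 with h4 | h4 | h4
        · have h5 : ((T : ℤ) + 1) * (e (b - c) + p i * b - e (b' - c) - p i * b') ≤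
              ((T : ℤ) + 1) * (-1) := mul_le_mul_of_nonneg_left (by omega) (by omega)
          omega
        · rw [h4] at h3
          omega
        · have h5 : ((T : ℤ) + 1) * 1 ≤
              ((T : ℤ) + 1) * (e (b - c) + p i * b - e (b' - c) - p i * b') :=
            mul_le_mul_of_nonneg_left (by omega) (by omega)
          omega
  · intro b hb
    by_cases h1 : b < c
    · have h2 : rowOf P b = ∅ := by
        ext a
        rw [mem_rowOf]
        constructor
        · intro h
          have := (hP _ h).1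
          exact absurd h1 (by simpa using this)
        · intro h
          exact absurd h (Finset.notMem_empty _)
      rw [h2]
      simp
    · obtain ⟨b0, rfl⟩ : ∃ b0, b = c + b0 := ⟨b - c, by omega⟩
      have hb0 : b0 < T := by omega
      have h2 := (hrow b0 hb0).trans (h b0 hb0)
      have h3 : ∀ i, rnk (c + T) (fun b => (if b < c then H + (1 + A) * b else
          ((T : ℤ) + 1) * e (b - c) + b) + ((T : ℤ) + 1) * p i * b) (c + b0) ≤ rk T e (p i) b0 := by
        intro i
        unfold rnk MP_6b2d39_agArr.rk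
        apply Finset.card_le_card_of_injOn (fun b => b - c)
        · intro b' hb'
          simp only [Finset.coe_filter, Finset.mem_range, Set.mem_ofPred_eq] at hb' ⊢
          obtain ⟨hb1, hb2⟩ := hb'
          rw [if_neg (show ¬ (c + b0 < c) by omega), show c + b0 - c = b0 by omega] at hb2
          have hbc : ¬ b' < c := by
            intro hbc
            rw [if_pos hbc] at hb2
            have h4 := hlarge i (c + b0) (by omega)
            rw [show c + b0 - c = b0 by omega] at h4
            have h5 := hsmall i b'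
            omega
          rw [if_neg hbc] at hb2
          obtain ⟨b1, rfl⟩ : ∃ b1, b' = c + b1 := ⟨b' - c, by omega⟩
          rw [show c + b1 - c = b1 by omega] at hb2 ⊢
          have h6 : ((T : ℤ) + 1) * (e b1 + p i * b1) + b1 < ((T : ℤ) + 1) * (e b0 + p i * b0) + b0 := by
            push_cast at hb2
            linarith [hb2]
          refine ⟨by omega, ?_, ?_⟩
          · rintro rfl
            exact lt_irrefl _ h6
          · by_contra hne
            have h7 : ((T : ℤ) + 1) * (e b0 + p i * b0 + 1) ≤ ((T : ℤ) + 1) * (e b1 + p i * b1) :=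
              mul_le_mul_of_nonneg_left (by omega) (by omega)
            rw [mul_add] at h7
            omega
        · intro b' hb' b'' hb'' hbb
          simp only [Finset.coe_filter, Finset.mem_range, Set.mem_ofPred_eq] at hb' hb''
          have hx : ∀ b' : ℕ, ((if b' < c then H + (1 + A) * b' else
              ((T : ℤ) + 1) * e (b' - c) + b') + ((T : ℤ) + 1) * p i * b' <
              (if c + b0 < c then H + (1 + A) * (c + b0 : ℕ) else
              ((T : ℤ) + 1) * e (c + b0 - c) + (c + b0 : ℕ)) + ((T : ℤ) + 1) * p i * (c + b0 : ℕ)) →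
              ¬ b' < c := by
            intro b' hlt hbc
            rw [if_neg (show ¬ (c + b0 < c) by omega), if_pos hbc] at hlt
            have h4 := hlarge i (c + b0) (by omega)
            have h5 := hsmall i b'
            omega
          have h4 := hx b' hb'.2
          have h5 := hx b'' hb''.2
          simp only at hbb
          omega
      have h4 : ∑ j ∈ J, ((m j - rk T e (p j) b0 : ℕ) : ℤ) ≤
          ((∑ i, ((if i ∈ J then m i else 0) - rnk (c + T) (fun b => (if b < c then H + (1 + A) * b else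
          ((T : ℤ) + 1) * e (b - c) + b) + ((T : ℤ) + 1) * p i * b) (c + b0)) : ℕ) : ℤ) := by
        rw [Nat.cast_sum, ← Finset.sum_subset (Finset.subset_univ J)]
        · apply Finset.sum_le_sum
          intro j hj
          have := h3 j
          rw [if_pos hj]
          omega
        · intro j _ hj
          rw [if_neg hj]
          simp
      exact_mod_cast h2.trans h4

/-- rows `T - 1, …, 1, 0` -/
theorem empP_of_cert_down {ι : Type} [Fintype ι] [DecidableEq ι] {m : ι → ℕ} {J : Finset ι}
    {P : Finset (ℕ × ℕ)} {T : ℕ} {D : ℕ → ℤ} (h : Cert m J T D)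
    (hrow : ∀ b < T, ((rowOf P (T - 1 - b)).card : ℤ) ≤ D b)
    (hP : ∀ p ∈ P, p.2 < T) : EmpP P m J := by
  classical
  obtain ⟨e, p, h⟩ := h
  apply empP_of_goodP
  have hW : ∀ i, ∀ b < T, ((T : ℤ) + 1) * e (T - 1 - b) - b + (-(((T : ℤ) + 1) * p i)) * b =
      ((T : ℤ) + 1) * (e (T - 1 - b) + p i * (T - 1 - b : ℕ)) + (T - 1 - b : ℕ)
        - (T - 1) - ((T : ℤ) + 1) * p i * (T - 1) := by
    intro i b hb
    have h1 : ((T - 1 - b : ℕ) : ℤ) = T - 1 - b := by omega
    rw [h1]
    ring
  apply goodP_of_rows T hP (fun b => ((T : ℤ) + 1) * e (T - 1 - b) - b)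
    (fun i => -(((T : ℤ) + 1) * p i))
  · intro i b hb b' hb' hbb
    have h3 : ((T : ℤ) + 1) * (e (T - 1 - b) - p i * b - e (T - 1 - b') + p i * b') =
        (b : ℤ) - b' := by linear_combination hbb
    rcases lt_trichotomy (e (T - 1 - b) - p i * b - e (T - 1 - b') + p i * b') 0 with h4 | h4 | h4
    · have h5 : ((T : ℤ) + 1) * (e (T - 1 - b) - p i * b - e (T - 1 - b') + p i * b') ≤
          ((T : ℤ) + 1) * (-1) := mul_le_mul_of_nonneg_left (by omega) (by omega)
      omega
    · rw [h4] at h3
      omega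
    · have h5 : ((T : ℤ) + 1) * 1 ≤
          ((T : ℤ) + 1) * (e (T - 1 - b) - p i * b - e (T - 1 - b') + p i * b') :=
        mul_le_mul_of_nonneg_left (by omega) (by omega)
      omega
  · intro b hb
    have hb0 : T - 1 - b < T := by omega
    have h2 := (hrow (T - 1 - b) hb0).trans (h (T - 1 - b) hb0)
    rw [show T - 1 - (T - 1 - b) = b by omega] at h2
    have h3 : ∀ i, rnk T (fun b => ((T : ℤ) + 1) * e (T - 1 - b) - b +
        -(((T : ℤ) + 1) * p i) * b) b ≤ rk T e (p i) (T - 1 - b) := by
      intro i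
      unfold rnk MP_6b2d39_agArr.rk
      apply Finset.card_le_card_of_injOn (fun b => T - 1 - b)
      · intro b' hb'
        simp only [Finset.coe_filter, Finset.mem_range, Set.mem_ofPred_eq] at hb' ⊢
        obtain ⟨hb1, hb2⟩ := hb'
        rw [hW i b' hb1, hW i b hb] at hb2
        have h6 : ((T : ℤ) + 1) * (e (T - 1 - b') + p i * (T - 1 - b' : ℕ)) + (T - 1 - b' : ℕ) <
            ((T : ℤ) + 1) * (e (T - 1 - b) + p i * (T - 1 - b : ℕ)) + (T - 1 - b : ℕ) := by
          linarith
        refine ⟨by omega, ?_, ?_⟩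
        · intro heq
          rw [heq] at h6
          exact lt_irrefl _ h6
        · by_contra hne
          have h7 : ((T : ℤ) + 1) * (e (T - 1 - b) + p i * (T - 1 - b : ℕ) + 1) ≤
              ((T : ℤ) + 1) * (e (T - 1 - b') + p i * (T - 1 - b' : ℕ)) :=
            mul_le_mul_of_nonneg_left (by omega) (by omega)
          rw [mul_add] at h7
          omega
      · intro b' hb' b'' hb'' hbb
        simp only [Finset.coe_filter, Finset.mem_range, Set.mem_ofPred_eq] at hb' hb''
        simp only at hbb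
        omega
    have h4 : ∑ j ∈ J, ((m j - rk T e (p j) (T - 1 - b) : ℕ) : ℤ) ≤
        ((∑ i, ((if i ∈ J then m i else 0) - rnk T (fun b => ((T : ℤ) + 1) * e (T - 1 - b) - b +
        -(((T : ℤ) + 1) * p i) * b) b) : ℕ) : ℤ) := by
      rw [Nat.cast_sum, ← Finset.sum_subset (Finset.subset_univ J)]
      · apply Finset.sum_le_sum
        intro j hj
        have := h3 j
        rw [if_pos hj]
        omega
      · intro j _ hj
        rw [if_neg hj]
        simp
    exact_mod_cast h2.trans h4

end Pool.Agent.Lib.MP_6b2d39_agWin
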