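import Pool.Agent.Lib.MP_6b2d39_agWin.Final

set_option autoImplicit false

namespace Pool.Agent.Lib.MP_6b2d39_agWin

open Pool.Agent.Lib.MP_6b2d39_agCr

variable {h : ℕ}

theorem general_special_of_bad {e : ℕ} {n : Fin h → ℕ}
    (hbad : ¬ General (fun P => (Module.finrank ℂ (curves e n P) : ℤ) = max (vd e n) 0)) :
    General (fun P => IsSpecial e n P) := by
  refine ⟨1, one_ne_zero, fun P _ => ?_⟩
  by_contra hc
  exact hbad (general_nonspecial_of_le P (not_lt.1 hc))

theorem hh_window_strong (hh : 3 ≤ h) (d : ℕ) (m : Fin h → ℕ) :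
    General (fun P => IsSpecial d m P ↔ IsMinusOneSpecial d m P) ∨
      ∃ (e : ℕ) (n : Fin h → ℕ), Relation.ReflTransGen CremonaStep (d, m) (e, n) ∧
        Reduced e n ∧ General (fun P => IsSpecial e n P) ∧
        ∀ μ : ℕ, 1 ≤ μ → (Finset.univ.filter (fun i => μ < n i)).card ≤ 3 →
          -(7 * (μ : ℤ) ^ 2) < vd e n ∧ vd e n < 13 * (μ : ℤ) ^ 2 := by
  rcases hh_main hh d m with h1 | ⟨e, n, hr, hred, hbad⟩
  · exact Or.inl h1
  · refine Or.inr ⟨e, n, hr, hred, general_special_of_bad hbad, ?_⟩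
    intro μ hμ hcard
    by_contra hcon
    apply hbad
    apply window hh hred hμ hcard
    by_contra hne
    push Not at hne
    exact hcon hne

theorem hh_finite_strong (hh : 3 ≤ h) (d : ℕ) (m : Fin h → ℕ) :
    General (fun P => IsSpecial d m P ↔ IsMinusOneSpecial d m P) ∨
      ∃ (e : ℕ) (n : Fin h → ℕ), Relation.ReflTransGen CremonaStep (d, m) (e, n) ∧
        (∀ i, n i ≤ m i) ∧ Reduced e n ∧ General (fun P => IsSpecial e n P) ∧
        ∀ M : ℕ, 1 ≤ M → (Finset.univ.filter (fun i => M < n i)).card ≤ 3 →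
          e < 27 * M ^ 2 + 6 * M ∧
            ∑ i, (n i + 1).choose 2 < (27 * M ^ 2 + 6 * M + 2).choose 2 := by
  rcases hh_main hh d m with h1 | ⟨e, n, hr, hred, hbad⟩
  · exact Or.inl h1
  · refine Or.inr ⟨e, n, hr, fun i => le_of_reach hr i, hred, general_special_of_bad hbad, ?_⟩
    intro M hM hc
    constructor
    · by_contra hcon
      exact hbad (reduced_large hh hred hM hc (not_lt.1 hcon))
    · by_contra hcon
      exact hbad (reduced_many hh hred hM hc (not_lt.1 hcon))

end Pool.Agent.Lib.MP_6b2d39_agWin
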