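import Pool.Agent.Lib.MP_6b2d39_agWin.Emp
import Pool.Agent.Lib.MP_6b2d39_agWin.Lin

open Polynomial

set_option autoImplicit false

namespace Pool.Agent.Lib.MP_6b2d39_agWin

open Pool.Agent.Lib.MP_6b2d39_ag Pool.Agent.Lib.MP_6b2d39_ag.Rel

private theorem exists_det_ne {n : Type*} [Fintype n] [DecidableEq n] (M : Matrix n n ℂ[X])
    (hM : M.map (Polynomial.eval 0) = 1) :
    ∃ s : ℂ, s ≠ 0 ∧ (M.map (Polynomial.eval s)).det ≠ 0 := by
  have hdet : ∀ z : ℂ, (M.map (Polynomial.eval z)).det = Polynomial.eval z M.det := by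
    intro z
    have := RingHom.map_det (Polynomial.evalRingHom z) M
    rw [Polynomial.coe_evalRingHom] at this
    rw [this]
    rfl
  have h0 : M.det ≠ 0 := by
    intro h
    have h1 := hdet 0
    rw [hM, h] at h1
    simp at h1
  have h1 : Polynomial.X * M.det ≠ 0 := mul_ne_zero Polynomial.X_ne_zero h0
  obtain ⟨z, hz⟩ : ∃ z, Polynomial.eval z (Polynomial.X * M.det) ≠ 0 := by
    by_contra hcon
    push Not at hcon
    exact h1 (Polynomial.funext fun z => by simpa using hcon z)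
  rw [Polynomial.eval_mul, Polynomial.eval_X] at hz
  refine ⟨z, left_ne_zero_of_mul hz, ?_⟩
  rw [hdet]
  exact right_ne_zero_of_mul hz

/-- the linear algebra of the cutting lemma -/
private theorem cut_aux {I₁ I₂ J₁ J₂ : Type*} [Fintype I₁] [Fintype I₂] [DecidableEq I₁]
    [DecidableEq I₂]
    (A₁ : (I₁ → ℂ) →ₗ[ℂ] (J₁ → ℂ)) (B₁ : (I₂ → ℂ) →ₗ[ℂ] (J₁ → ℂ))
    (A₂ : (I₂ → ℂ) →ₗ[ℂ] (J₂ → ℂ)) (B₂ : (I₁ → ℂ) →ₗ[ℂ] (J₂ → ℂ))
    (h₁ : LinearMap.ker A₁ = ⊥) (h₂ : LinearMap.ker A₂ = ⊥)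
    (d₁ : I₁ → ℕ) (d₂ : I₂ → ℕ) (hd : ∀ α β, d₂ β < d₁ α) :
    ∃ s : ℂ, s ≠ 0 ∧ ∀ (f₁ : I₁ → ℂ) (f₂ : I₂ → ℂ), A₁ f₁ + B₁ f₂ = 0 →
      A₂ (fun β => s ^ d₂ β * f₂ β) + B₂ (fun α => s ^ d₁ α * f₁ α) = 0 → f₁ = 0 ∧ f₂ = 0 := by
  obtain ⟨L₁, hL₁⟩ := LinearMap.exists_leftInverse_of_injective A₁ h₁
  obtain ⟨L₂, hL₂⟩ := LinearMap.exists_leftInverse_of_injective A₂ h₂
  let X : Matrix I₁ I₂ ℂ := LinearMap.toMatrix' (L₁ ∘ₗ B₁)
  let Y : Matrix I₂ I₁ ℂ := LinearMap.toMatrix' (L₂ ∘ₗ B₂)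
  let M : Matrix I₂ I₂ ℂ[X] := fun β γ => (if β = γ then 1 else 0)
    - ∑ α : I₁, Polynomial.X ^ (d₁ α - d₂ β) * Polynomial.C (Y β α * X α γ)
  have hMe : ∀ (z : ℂ) (β γ : I₂), (M.map (Polynomial.eval z)) β γ = (if β = γ then 1 else 0)
      - ∑ α : I₁, z ^ (d₁ α - d₂ β) * (Y β α * X α γ) := by
    intro z β γ
    change Polynomial.eval z ((if β = γ then 1 else 0)
      - ∑ α : I₁, Polynomial.X ^ (d₁ α - d₂ β) * Polynomial.C (Y β α * X α γ)) = _
    rw [Polynomial.eval_sub, Polynomial.eval_finsetSum]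
    congr 1
    · split_ifs <;> simp
    · refine Finset.sum_congr rfl fun α _ => ?_
      rw [Polynomial.eval_mul, Polynomial.eval_pow, Polynomial.eval_X, Polynomial.eval_C]
  have hM : M.map (Polynomial.eval 0) = 1 := by
    ext β γ
    have h1 : ∀ α : I₁, (0 : ℂ) ^ (d₁ α - d₂ β) * (Y β α * X α γ) = 0 := by
      intro α
      have h2 := hd α β
      rw [zero_pow (by omega), zero_mul]
    rw [hMe, Finset.sum_congr rfl fun α _ => h1 α, Finset.sum_const_zero, sub_zero,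
      Matrix.one_apply]
  obtain ⟨s, hs0, hs⟩ := exists_det_ne M hM
  refine ⟨s, hs0, fun f₁ f₂ e₁ e₂ => ?_⟩
  have g₁ : f₁ = -(X.mulVec f₂) := by
    have h1 := congrArg L₁ e₁
    rw [map_add, map_zero] at h1
    have h2 : L₁ (A₁ f₁) = f₁ := LinearMap.congr_fun hL₁ f₁
    have h3 : L₁ (B₁ f₂) = X.mulVec f₂ := by
      have := LinearMap.toMatrix'_mulVec (L₁ ∘ₗ B₁) f₂
      rw [this]
      rfl
    rw [h2, h3] at h1
    exact eq_neg_of_add_eq_zero_left h1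
  have g₂ : ∀ β : I₂, s ^ d₂ β * f₂ β = -∑ α : I₁, Y β α * (s ^ d₁ α * f₁ α) := by
    have h1 := congrArg L₂ e₂
    rw [map_add, map_zero] at h1
    have h2 : L₂ (A₂ (fun β => s ^ d₂ β * f₂ β)) = (fun β => s ^ d₂ β * f₂ β) :=
      LinearMap.congr_fun hL₂ _
    have h3 : L₂ (B₂ (fun α => s ^ d₁ α * f₁ α)) = Y.mulVec (fun α => s ^ d₁ α * f₁ α) := by
      have := LinearMap.toMatrix'_mulVec (L₂ ∘ₗ B₂) (fun α => s ^ d₁ α * f₁ α)
      rw [this]
      rfl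
    rw [h2, h3] at h1
    intro β
    have h4 := congrFun h1 β
    simp only [Pi.add_apply, Pi.zero_apply, Matrix.mulVec, dotProduct] at h4
    linear_combination h4
  have hker : (M.map (Polynomial.eval s)).mulVec f₂ = 0 := by
    ext β
    simp only [Matrix.mulVec, dotProduct, hMe, Pi.zero_apply, sub_mul, Finset.sum_sub_distrib]
    have h1 : ∑ γ : I₂, (if β = γ then (1 : ℂ) else 0) * f₂ γ = f₂ β := by
      rw [Finset.sum_eq_single β]
      · simp
      · intro γ _ hγ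
        simp [Ne.symm hγ]
      · simp
    rw [h1]
    have h2 : ∑ γ : I₂, (∑ α : I₁, s ^ (d₁ α - d₂ β) * (Y β α * X α γ)) * f₂ γ
        = -∑ α : I₁, s ^ (d₁ α - d₂ β) * (Y β α * f₁ α) := by
      simp only [Finset.sum_mul]
      rw [Finset.sum_comm, ← Finset.sum_neg_distrib]
      refine Finset.sum_congr rfl fun α _ => ?_
      have h3 : f₁ α = -∑ γ : I₂, X α γ * f₂ γ := congrFun g₁ α
      rw [h3]
      simp only [mul_neg, neg_neg, Finset.mul_sum]
      refine Finset.sum_congr rfl fun γ _ => ?_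
      ring
    rw [h2]
    have h4 : f₂ β = -∑ α : I₁, s ^ (d₁ α - d₂ β) * (Y β α * f₁ α) := by
      have h5 : s ^ d₂ β * f₂ β = s ^ d₂ β *
          (-∑ α : I₁, s ^ (d₁ α - d₂ β) * (Y β α * f₁ α)) := by
        rw [g₂ β, mul_neg, Finset.mul_sum]
        congr 1
        refine Finset.sum_congr rfl fun α _ => ?_
        have h6 : s ^ d₁ α = s ^ d₂ β * s ^ (d₁ α - d₂ β) := by
          rw [← pow_add]
          congr 1
          have := hd α β
          omega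
        rw [h6]
        ring
      exact mul_left_cancel₀ (pow_ne_zero _ hs0) h5
    linear_combination h4
  have hf₂ : f₂ = 0 := Matrix.eq_zero_of_mulVec_eq_zero hs hker
  have hf₁ : f₁ = 0 := by
    rw [g₁, hf₂]
    simp
  exact ⟨hf₁, hf₂⟩

/-- the conditions imposed by points -/
private noncomputable def condP {ι : Type} (m : ι → ℕ) (J : Finset ι) (x y : ι → ℂ)
    (P : Finset (ℕ × ℕ)) :
    (P → ℂ) →ₗ[ℂ] ({t : ι × ℕ × ℕ // t.1 ∈ J ∧ t.2.1 + t.2.2 < m t.1} → ℂ) where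
  toFun f t := ∑ i : P, Transfer.entry (x t.1.1) (y t.1.1) t.1.2.1 t.1.2.2 i.1.1 i.1.2 * f i
  map_add' f g := by
    ext t
    simp only [Pi.add_apply, mul_add, Finset.sum_add_distrib]
  map_smul' r f := by
    ext t
    simp only [Pi.smul_apply, smul_eq_mul, RingHom.id_apply, Finset.mul_sum]
    refine Finset.sum_congr rfl fun i _ => ?_
    ring

private theorem ker_condP {ι : Type} {m : ι → ℕ} {J : Finset ι} {x y : ι → ℂ}
    {P : Finset (ℕ × ℕ)} (h : ∀ f : ℂ[X][X], SuppP P f →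
      (∀ i ∈ J, Cond (Finset.Icc 1 (m i)) (x i) (y i) f) → f = 0) :
    LinearMap.ker (condP m J x y P) = ⊥ := by
  refine LinearMap.ker_eq_bot'.2 fun f hf => ?_
  have h0 : ofC f = 0 := by
    apply h _ (suppP_ofC f)
    intro i hi
    rw [cond_ofC_iff]
    intro a b hab
    exact congrFun hf ⟨(i, a, b), hi, hab⟩
  ext i
  rw [← coeff_ofC_self f i, h0]
  simp

/-- the cutting lemma (Dumnicki) for a vertical line -/
theorem EmpP.cut {ι : Type} [Fintype ι] [DecidableEq ι] {P₁ P₂ : Finset (ℕ × ℕ)} {m : ι → ℕ}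
    {J₁ J₂ : Finset ι} (hJ : Disjoint J₁ J₂) (h₁ : EmpP P₁ m J₁) (h₂ : EmpP P₂ m J₂) (c : ℕ)
    (hc₁ : ∀ p ∈ P₁, c ≤ p.1) (hc₂ : ∀ p ∈ P₂, p.1 < c) : EmpP (P₁ ∪ P₂) m (J₁ ∪ J₂) := by
  classical
  obtain ⟨x₁, y₁, hx₁, hy₁, H₁⟩ := h₁
  obtain ⟨x₂, y₂, hx₂, hy₂, H₂⟩ := h₂
  have hdisj : Disjoint P₁ P₂ := by
    rw [Finset.disjoint_left]
    intro p h1 h2
    have := hc₁ p h1
    have := hc₂ p h2
    omega
  obtain ⟨s, hs0, hs⟩ := cut_aux (condP m J₁ x₁ y₁ P₁) (condP m J₁ x₁ y₁ P₂)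
    (condP m J₂ x₂ y₂ P₂) (condP m J₂ x₂ y₂ P₁) (ker_condP H₁) (ker_condP H₂)
    (fun α : P₁ => α.1.1) (fun β : P₂ => β.1.1) (by
      intro α β
      have := hc₁ α.1 α.2
      have := hc₂ β.1 β.2
      omega)
  refine ⟨fun i => if i ∈ J₁ then x₁ i else s * x₂ i, fun i => if i ∈ J₁ then y₁ i else y₂ i,
    ?_, ?_, ?_⟩
  · intro i
    beta_reduce
    split_ifs
    · exact hx₁ i
    · exact mul_ne_zero hs0 (hx₂ i)
  · intro i
    beta_reduce
    split_ifs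
    · exact hy₁ i
    · exact hy₂ i
  · intro f hf hc
    have hsum : ∀ g : ℕ × ℕ → ℂ, ∑ i : (P₁ ∪ P₂ : Finset (ℕ × ℕ)), g i.1 =
        ∑ i : P₁, g i.1 + ∑ i : P₂, g i.1 := by
      intro g
      rw [Finset.sum_coe_sort (P₁ ∪ P₂) g, Finset.sum_coe_sort P₁ g, Finset.sum_coe_sort P₂ g,
        Finset.sum_union hdisj]
    have hcf : ∀ i ∈ J₁ ∪ J₂, ∀ a b, a + b < m i →
        ∑ p : P₁, Transfer.entry (if i ∈ J₁ then x₁ i else s * x₂ i)
          (if i ∈ J₁ then y₁ i else y₂ i) a b p.1.1 p.1.2 * (f.coeff p.1.1).coeff p.1.2 +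
        ∑ p : P₂, Transfer.entry (if i ∈ J₁ then x₁ i else s * x₂ i)
          (if i ∈ J₁ then y₁ i else y₂ i) a b p.1.1 p.1.2 * (f.coeff p.1.1).coeff p.1.2 = 0 := by
      intro i hi a b hab
      have h1 := hc i hi
      rw [eq_ofC hf, cond_ofC_iff] at h1
      have h2 := h1 a b hab
      rw [← h2]
      exact (hsum (fun p => Transfer.entry (if i ∈ J₁ then x₁ i else s * x₂ i)
          (if i ∈ J₁ then y₁ i else y₂ i) a b p.1 p.2 * (f.coeff p.1).coeff p.2)).symm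
    obtain ⟨hf1, hf2⟩ := hs (fun p : P₁ => (f.coeff p.1.1).coeff p.1.2)
      (fun p : P₂ => (f.coeff p.1.1).coeff p.1.2) (by
        ext ⟨⟨i, a, b⟩, hi, hab⟩
        have h1 := hcf i (Finset.mem_union_left _ hi) a b hab
        simp only [if_pos (show i ∈ J₁ from hi)] at h1
        exact h1) (by
        ext ⟨⟨i, a, b⟩, hi, hab⟩
        have hi' : i ∉ J₁ := fun h => (Finset.disjoint_left.1 hJ h) hi
        have h1 := hcf i (Finset.mem_union_right _ hi) a b hab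
        simp only [if_neg hi'] at h1
        have h2 := congrArg (fun z => s ^ a * z) h1
        simp only [mul_add, mul_zero, Finset.mul_sum, ← mul_assoc, entry_scale] at h2
        rw [add_comm] at h2
        simp only [Pi.add_apply, Pi.zero_apply, condP, LinearMap.coe_mk, AddHom.coe_mk]
        rw [← h2]
        congr 1
        · refine Finset.sum_congr rfl fun p _ => ?_
          ring
        · refine Finset.sum_congr rfl fun p _ => ?_
          ring)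
    ext a b
    rw [coeff_zero, coeff_zero]
    by_cases h : (a, b) ∈ P₁ ∪ P₂
    · rcases Finset.mem_union.1 h with h' | h'
      · exact congrFun hf1 ⟨(a, b), h'⟩
      · exact congrFun hf2 ⟨(a, b), h'⟩
    · exact hf a b h

end Pool.Agent.Lib.MP_6b2d39_agWin
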