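import Pool.Agent.Lib.MP_6b2d39_agWin.Window
import Pool.Agent.Lib.MP_6b2d39_agCr.Chain
import Pool.Agent.Lib.MP_6b2d39_agStd.Std

open MvPolynomial

set_option autoImplicit false

namespace Pool.Agent.Lib.MP_6b2d39_agWin

open Pool.Agent.Lib.MP_6b2d39_agCr

variable {h : ℕ}

theorem hh_window (hh : 3 ≤ h) (d : ℕ) (m : Fin h → ℕ) :
    General (fun P => IsSpecial d m P ↔ IsMinusOneSpecial d m P) ∨
      ∃ (e : ℕ) (n : Fin h → ℕ), Relation.ReflTransGen CremonaStep (d, m) (e, n) ∧
        Reduced e n ∧ ∀ μ : ℕ, 1 ≤ μ → (Finset.univ.filter (fun i => μ < n i)).card ≤ 3 →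
          -(7 * (μ : ℤ) ^ 2) < vd e n ∧ vd e n < 13 * (μ : ℤ) ^ 2 := by
  rcases hh_main hh d m with h1 | ⟨e, n, hr, hred, hbad⟩
  · exact Or.inl h1
  · refine Or.inr ⟨e, n, hr, hred, ?_⟩
    intro μ hμ hcard
    by_contra hcon
    apply hbad
    apply window hh hred hμ hcard
    by_contra hne
    push Not at hne
    exact hcon hne

theorem reduced_large (hh : 3 ≤ h) {e : ℕ} {n : Fin h → ℕ} (hred : Reduced e n) {M : ℕ}
    (hM : 1 ≤ M) (hcard : (Finset.univ.filter (fun i => M < n i)).card ≤ 3)
    (he : 27 * M ^ 2 + 6 * M ≤ e) :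
    General (fun P => (Module.finrank ℂ (curves e n P) : ℤ) = max (vd e n) 0) := by
  obtain ⟨τ, h12, h20, hτ⟩ := exists_heavy hh n
  have hall : ∀ t, n (τ 1) ≤ n (τ t) := by
    intro t
    fin_cases t
    · exact h12.trans h20
    · exact le_rfl
    · exact h12
  have hlight : ∀ l, (¬ ∃ t, τ t = l) → n l ≤ M :=
    light_le (τ := τ) (fun l hl t => (hτ l hl).trans (hall t)) hcard
  rcases Nat.eq_zero_or_pos (n (τ 1)) with h0 | h0
  · apply nonspecial_three τ _ (hred τ)
    intro l hl
    have := hτ l hl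
    omega
  · apply general_nonspecial_of_affine
    have hs := hred τ
    rw [Fin.sum_univ_three] at hs
    have hmM : min M (n (τ 1)) ≤ M := min_le_left _ _
    have hsq : 9 * (min M (n (τ 1))) ^ 2 + 2 * min M (n (τ 1)) ≤ 9 * M ^ 2 + 2 * M := by
      have := Nat.pow_le_pow_left hmM 2
      omega
    apply MP_6b2d39_agArr.reduced_nonspecial (M := min M (n (τ 1))) n (τ 0) (τ 2) (τ 1)
      (fun h => absurd (τ.injective h) (by decide)) (fun h => absurd (τ.injective h) (by decide))
      (fun h => absurd (τ.injective h) (by decide)) (le_min hM h0)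
    · intro i h1 h2 h3
      have hi : ¬ ∃ t, τ t = i := by
        rintro ⟨t, ht⟩
        fin_cases t
        · exact h1 ht.symm
        · exact h3 ht.symm
        · exact h2 ht.symm
      exact le_min (hlight i hi) (hτ i hi)
    · exact (min_le_right _ _).trans h12
    · exact min_le_right _ _
    · omega
    · omega

/-- homogeneous polynomials form a finite dimensional space -/
theorem final_finite (d : ℕ) : Module.Finite ℂ (homogeneousSubmodule (Fin 3) ℂ d) := by
  have h1 : homogeneousSubmodule (Fin 3) ℂ d ≤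
      restrictSupport ℂ {u : Fin 3 →₀ ℕ | Finsupp.degree u ≤ d} := by
    intro F hF
    rw [mem_homogeneousSubmodule] at hF
    rw [mem_restrictSupport_iff]
    intro u hu
    rw [Finset.mem_coe, mem_support_iff] at hu
    have h3 := hF hu
    have h4 : Finsupp.degree u = Finsupp.weight (1 : Fin 3 → ℕ) u := by
      rw [Finsupp.degree_eq_weight_one]
      rfl
    have h6 : Finsupp.degree u ≤ d := by
      rw [h4]
      exact le_of_eq h3
    exact h6
  have h2 : {u : Fin 3 →₀ ℕ | Finsupp.degree u ≤ d}.Finite := by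
    apply Set.Finite.subset (Finset.finite_toSet
      ((Finset.univ : Finset (Fin 3 → Fin (d + 1))).image
        (fun f => Finsupp.equivFunOnFinite.symm (fun i => (f i : ℕ)))))
    intro u hu
    simp only [Finset.coe_image, Finset.coe_univ, Set.image_univ, Set.mem_range]
    refine ⟨fun i => ⟨u i, ?_⟩, ?_⟩
    · have h3 : u i ≤ Finsupp.degree u := Finsupp.le_degree i u
      have h4 : Finsupp.degree u ≤ d := hu
      omega
    · ext i
      simp
  have : Finite {u : Fin 3 →₀ ℕ | Finsupp.degree u ≤ d} := h2.to_subtype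
  have h3 : Module.Finite ℂ (restrictSupport ℂ {u : Fin 3 →₀ ℕ | Finsupp.degree u ≤ d}) :=
    Module.Finite.of_basis (basisRestrictSupport ℂ _)
  exact Submodule.finiteDimensional_of_le h1

theorem final_finite_curves (d : ℕ) (m : Fin h → ℕ) (P : Fin h → Fin 3 → ℂ) :
    Module.Finite ℂ (curves d m P) := by
  have := final_finite d
  exact Submodule.finiteDimensional_of_le (inf_le_left : curves d m P ≤ _)

theorem reduced_many (hh : 3 ≤ h) {e : ℕ} {n : Fin h → ℕ} (hred : Reduced e n) {M : ℕ}
    (hM : 1 ≤ M) (hcard : (Finset.univ.filter (fun i => M < n i)).card ≤ 3)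
    (hsum : (27 * M ^ 2 + 6 * M + 2).choose 2 ≤ ∑ i, (n i + 1).choose 2) :
    General (fun P => (Module.finrank ℂ (curves e n P) : ℤ) = max (vd e n) 0) := by
  rcases Nat.lt_or_ge e (27 * M ^ 2 + 6 * M) with hlt | hge
  · set e0 := 27 * M ^ 2 + 6 * M with he0
    have h1 := reduced_large hh (e := e0) (fun τ => (hred τ).trans hlt.le) hM hcard le_rfl
    refine h1.mono ?_
    intro P hP
    have hsum' : (((e0 + 2).choose 2 : ℕ) : ℤ) ≤ ∑ i, (((n i + 1).choose 2 : ℕ) : ℤ) := by
      exact_mod_cast hsum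
    have hv0 : vd e0 n ≤ 0 := by
      unfold vd
      linarith
    have hv : vd e n ≤ 0 := by
      refine le_trans ?_ hv0
      unfold vd
      have : (((e + 2).choose 2 : ℕ) : ℤ) ≤ (((e0 + 2).choose 2 : ℕ) : ℤ) := by
        exact_mod_cast Nat.choose_le_choose 2 (by omega)
      linarith
    rw [max_eq_right hv0] at hP
    rw [max_eq_right hv]
    have hfin := final_finite_curves e0 n P
    have hbot : curves e0 n P = ⊥ := by
      apply Submodule.finrank_eq_zero.1
      exact_mod_cast hP
    have hbot' : curves e n P = ⊥ := by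
      rw [Submodule.eq_bot_iff]
      intro F hF
      have h2 : X 0 ^ (e0 - e) * F ∈ curves e0 n P := by
        rw [mem_curves] at hF ⊢
        refine ⟨?_, fun i => van_mul_left (hF.2 i) _⟩
        have h3 := ((isHomogeneous_X ℂ (0 : Fin 3)).pow (e0 - e)).mul hF.1
        have h4 : 1 * (e0 - e) + e = e0 := by omega
        rw [h4] at h3
        exact h3
      rw [hbot, Submodule.mem_bot] at h2
      rcases mul_eq_zero.1 h2 with h3 | h3
      · exact absurd h3 (pow_ne_zero _ (X_ne_zero 0))
      · exact h3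
    rw [hbot', finrank_bot]
    rfl
  · exact reduced_large hh hred hM hcard hge

theorem hh_finite (hh : 3 ≤ h) {M : ℕ} (hM : 1 ≤ M) (d : ℕ) (m : Fin h → ℕ)
    (hcard : (Finset.univ.filter (fun i => M < m i)).card ≤ 3) :
    General (fun P => IsSpecial d m P ↔ IsMinusOneSpecial d m P) ∨
      ∃ (e : ℕ) (n : Fin h → ℕ), Relation.ReflTransGen CremonaStep (d, m) (e, n) ∧
        Reduced e n ∧ e < 27 * M ^ 2 + 6 * M ∧
          ∑ i, (n i + 1).choose 2 < (27 * M ^ 2 + 6 * M + 2).choose 2 := by
  rcases hh_main hh d m with h1 | ⟨e, n, hr, hred, hbad⟩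
  · exact Or.inl h1
  · refine Or.inr ⟨e, n, hr, hred, ?_⟩
    have hc : (Finset.univ.filter (fun i => M < n i)).card ≤ 3 := by
      refine le_trans (Finset.card_le_card ?_) hcard
      intro i hi
      rw [Finset.mem_filter] at hi ⊢
      exact ⟨hi.1, lt_of_lt_of_le hi.2 (le_of_reach hr i)⟩
    constructor
    · by_contra hcon
      exact hbad (reduced_large hh hred hM hc (not_lt.1 hcon))
    · by_contra hcon
      exact hbad (reduced_many hh hred hM hc (not_lt.1 hcon))

end Pool.Agent.Lib.MP_6b2d39_agWin
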