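import Pool.Agent.Lib.MP_6b2d39_agWin.Defs
import Pool.Agent.Lib.MP_6b2d39_agArr.StepA

set_option autoImplicit false

namespace Pool.Agent.Lib.MP_6b2d39_agWin

open Pool.Agent.Lib.MP_6b2d39_agArr

variable {ι : Type} [DecidableEq ι] {m : ι → ℕ}

/-- rows without demand can be added at the end -/
theorem cert_extend {J : Finset ι} {L L' : ℕ} (hL : L ≤ L') {D : ℕ → ℤ} (h : Cert m J L D)
    (h0 : ∀ b, L ≤ b → b < L' → D b ≤ 0) : Cert m J L' D := by
  have key : Cert m (J ∪ ∅) L' D := by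
    refine cert_scale (Finset.disjoint_empty_right J) hL h (fun b => if b < L then 0 else 1)
      (fun _ => 0) ?_ ?_ ?_ ?_ ?_
    · intro b hb
      simp [hb]
    · intro b hb _
      simp [not_lt.2 hb]
    · intro j hj
      simp at hj
    · intro b _
      simp
    · intro b hb hb'
      have h1 : (0 : ℤ) ≤ ∑ j ∈ J, ((m j - (L' - 1) : ℕ) : ℤ) :=
        Finset.sum_nonneg fun _ _ => by positivity
      have h2 := h0 b hb hb'
      rw [Finset.sum_empty]
      linarith
  rwa [Finset.union_empty] at key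

theorem cert_mono {J J' : Finset ι} (hJ : J ⊆ J') {L : ℕ} {D D' : ℕ → ℤ} (h : Cert m J L D)
    (hD : ∀ b < L, D' b ≤ D b) : Cert m J' L D' := by
  obtain ⟨e, p, hep⟩ := h
  refine ⟨e, p, fun b hb => (hD b hb).trans ((hep b hb).trans ?_)⟩
  exact Finset.sum_le_sum_of_subset_of_nonneg hJ (fun _ _ _ => by positivity)

private theorem exists_assign (L : ℕ) (D : ℕ → ℕ) : ∀ J : Finset ι,
    ∑ b ∈ Finset.range L, D b ≤ J.card →
    ∃ f : ι → ℕ, ∀ b < L, D b ≤ (J.filter (fun j => f j = b)).card := by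
  induction L with
  | zero => intro J _; exact ⟨fun _ => 0, fun b hb => absurd hb (Nat.not_lt_zero b)⟩
  | succ L ih =>
    intro J hJ
    rw [Finset.sum_range_succ] at hJ
    obtain ⟨T, hT, hTc⟩ := Finset.exists_subset_card_eq (s := J) (n := D L) (by omega)
    have hc : (J \ T).card = J.card - D L := by
      rw [Finset.card_sdiff_of_subset hT, hTc]
    obtain ⟨f, hf⟩ := ih (J \ T) (by omega)
    refine ⟨fun j => if j ∈ T then L else f j, fun b hb => ?_⟩
    rcases Nat.lt_succ_iff_lt_or_eq.1 hb with hb | rfl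
    · refine (hf b hb).trans (Finset.card_le_card ?_)
      intro j hj
      rw [Finset.mem_filter, Finset.mem_sdiff] at hj
      rw [Finset.mem_filter]
      refine ⟨hj.1.1, ?_⟩
      simp only [hj.1.2, if_false]
      exact hj.2
    · rw [← hTc]
      apply Finset.card_le_card
      intro j hj
      rw [Finset.mem_filter]
      exact ⟨hT hj, by simp [hj]⟩

/-- simple points fill any demand -/
theorem cert_simple {J : Finset ι} (hJ : ∀ j ∈ J, m j = 1) {L : ℕ} {D : ℕ → ℕ}
    (hD : ∑ b ∈ Finset.range L, D b ≤ J.card) : Cert m J L (fun b => (D b : ℤ)) := by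
  obtain ⟨f, hf⟩ := exists_assign L D J hD
  refine ⟨fun b => (b : ℤ) ^ 2, fun j => -2 * (f j : ℤ), fun b hb => ?_⟩
  have h1 : ∀ j ∈ J.filter (fun j => f j = b),
      rk L (fun b => (b : ℤ) ^ 2) (-2 * (f j : ℤ)) b = 0 := by
    intro j hj
    rw [Finset.mem_filter] at hj
    unfold rk
    rw [Finset.card_eq_zero, Finset.filter_eq_empty_iff]
    rintro c _ ⟨hcb, hle⟩
    rw [hj.2] at hle
    have h2 : ((c : ℤ) - b) ^ 2 ≤ 0 := by nlinarith
    have h3 : (c : ℤ) - b = 0 := by
      have := sq_nonneg ((c : ℤ) - b)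
      have h4 : ((c : ℤ) - b) ^ 2 = 0 := le_antisymm h2 this
      exact pow_eq_zero_iff (two_ne_zero) |>.1 h4
    apply hcb
    have : (c : ℤ) = b := by linarith
    exact_mod_cast this
  calc ((D b : ℕ) : ℤ) ≤ ((J.filter (fun j => f j = b)).card : ℤ) := by exact_mod_cast hf b hb
    _ = ∑ j ∈ J.filter (fun j => f j = b),
        ((m j - rk L (fun b => (b : ℤ) ^ 2) (-2 * (f j : ℤ)) b : ℕ) : ℤ) := by
        rw [Finset.card_eq_sum_ones, Nat.cast_sum]
        apply Finset.sum_congr rfl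
        intro j hj
        rw [h1 j hj, hJ j (Finset.mem_filter.1 hj).1]
    _ ≤ _ := Finset.sum_le_sum_of_subset_of_nonneg (Finset.filter_subset _ _)
        (fun _ _ _ => by positivity)

end Pool.Agent.Lib.MP_6b2d39_agWin
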