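import Pool.Agent.Lib.MP_6b2d39_agArr.Defs

/-!
Window theorem for Cremona-reduced systems: rows of the two pieces of the hexagon.
-/

set_option autoImplicit false

namespace Pool.Agent.Lib.MP_6b2d39_agWin

open Pool.Agent.Lib.MP_6b2d39_agArr

/-- length of the row `b < T` of a piece: `min (b + 1, c1, c0 + (T - 1 - b))` -/
def sh (T c0 c1 b : ℕ) : ℕ := min (b + 1) (min c1 (c0 + (T - 1 - b)))

/-- state of the filling procedure: the rows `b < L` are not yet full, the row `b` contains `X b`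
cells used by the points placed so far; all these points are in their decreasing phase -/
structure St (μ T c0 c1 L : ℕ) (X : ℕ → ℕ) : Prop where
  le : ∀ b < L, X b ≤ sh T c0 c1 b
  t1 : ∀ b, b + 1 < L → 1 ≤ X (b + 1) → X b + 1 ≤ X (b + 1)
  t0 : ∀ b, b + 1 < L → X (b + 1) = 0 → X b = 0
  t2 : ∀ b, b + 1 < L → μ + 1 ≤ X (b + 1) → X b + 2 ≤ X (b + 1)

/-- state in the last rows: overfilling by at most `μ` is allowed -/
structure Cr (μ T c0 c1 L : ℕ) (X : ℕ → ℕ) : Prop where
  le : ∀ b < L, X b ≤ sh T c0 c1 b + μ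
  t1 : ∀ b, b + 1 < L → 1 ≤ X (b + 1) → X b + 1 ≤ X (b + 1)
  t0 : ∀ b, b + 1 < L → X (b + 1) = 0 → X b = 0

/-- total mass of the points of `J` -/
def mass {ι : Type} (m : ι → ℕ) (J : Finset ι) : ℕ := ∑ j ∈ J, (m j + 1).choose 2

end Pool.Agent.Lib.MP_6b2d39_agWin
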