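import Pool.Agent.Lib.MP_6b2d39_ag.Rel.Defs
import Pool.Agent.Lib.MP_6b2d39_agWin.Defs

open Polynomial

set_option autoImplicit false

namespace Pool.Agent.Lib.MP_6b2d39_agWin

open Pool.Agent.Lib.MP_6b2d39_ag Pool.Agent.Lib.MP_6b2d39_ag.Rel

/-- There are points off the coordinate axes of `ℂ²` such that no nonzero polynomial supported on
`P` has multiplicity `m i` at the point `i`, for every `i ∈ J`. -/
def EmpP {ι : Type} (P : Finset (ℕ × ℕ)) (m : ι → ℕ) (J : Finset ι) : Prop :=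
  ∃ x y : ι → ℂ, (∀ i, x i ≠ 0) ∧ (∀ i, y i ≠ 0) ∧ ∀ f : ℂ[X][X], SuppP P f →
    (∀ i ∈ J, Cond (Finset.Icc 1 (m i)) (x i) (y i) f) → f = 0

end Pool.Agent.Lib.MP_6b2d39_agWin
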