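import Pool.Agent.Lib.MP_6b2d39_agWin.Rows

set_option autoImplicit false

namespace Pool.Agent.Lib.MP_6b2d39_agWin

/-- exponents `(i, j)` of the monomials `x ^ i * y ^ j` of the forms of degree `d` with multiplicity
at least `a 0`, `a 1`, `a 2` at the points `[1:0:0]`, `[0:1:0]`, `[0:0:1]` -/
def hex (d : ℕ) (a : Fin 3 → ℕ) : Finset (ℕ × ℕ) :=
  (Finset.range (d + 1) ×ˢ Finset.range (d + 1)).filter
    (fun p => p.1 + a 0 ≤ d ∧ p.2 + a 1 ≤ d ∧ a 2 ≤ p.1 + p.2 ∧ p.1 + p.2 ≤ d)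

theorem mem_hex {d : ℕ} {a : Fin 3 → ℕ} {p : ℕ × ℕ} :
    p ∈ hex d a ↔ p.1 + a 0 ≤ d ∧ p.2 + a 1 ≤ d ∧ a 2 ≤ p.1 + p.2 ∧ p.1 + p.2 ≤ d := by
  unfold hex
  rw [Finset.mem_filter, Finset.mem_product, Finset.mem_range, Finset.mem_range]
  omega

/-- a triangle -/
private def tri (n : ℕ) : Finset (ℕ × ℕ) :=
  (Finset.range n ×ˢ Finset.range n).filter (fun p => p.1 + p.2 < n)

private theorem mem_tri {n : ℕ} {p : ℕ × ℕ} : p ∈ tri n ↔ p.1 + p.2 < n := by
  unfold tri
  rw [Finset.mem_filter, Finset.mem_product, Finset.mem_range, Finset.mem_range]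
  omega

private theorem card_tri (n : ℕ) : (tri n).card = (n + 1).choose 2 := by
  unfold tri
  rw [Finset.card_filter, Finset.sum_product]
  have h1 : ∀ i ∈ Finset.range n, ∑ j ∈ Finset.range n, (if i + j < n then 1 else 0) = n - i := by
    intro i _
    rw [← Finset.card_filter]
    have : (Finset.range n).filter (fun j => i + j < n) = Finset.range (n - i) := by
      ext j
      rw [Finset.mem_filter, Finset.mem_range, Finset.mem_range]
      omega
    rw [this, Finset.card_range]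
  rw [Finset.sum_congr rfl h1]
  have h2 : ∀ n : ℕ, ∑ i ∈ Finset.range n, (n - i) = (n + 1).choose 2 := by
    intro n
    induction n with
    | zero => rfl
    | succ n ih =>
      rw [Finset.sum_range_succ']
      have h3 : ∑ k ∈ Finset.range n, (n + 1 - (k + 1)) = ∑ k ∈ Finset.range n, (n - k) :=
        Finset.sum_congr rfl (fun k _ => by omega)
      have h4 : (n + 1 + 1).choose 2 = (n + 1) + (n + 1).choose 2 := by
        rw [Nat.choose_succ_succ' (n + 1) 1, Nat.choose_one_right]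
      rw [h3, ih, h4]
      omega
  exact h2 n

theorem card_hex {d : ℕ} {a : Fin 3 → ℕ} (ha : ∑ t, a t ≤ d) :
    (hex d a).card + ∑ t, (a t + 1).choose 2 = (d + 2).choose 2 := by
  rw [Fin.sum_univ_three] at ha ⊢
  -- the three corners
  set U0 : Finset (ℕ × ℕ) := (tri (a 0)).image (fun p => (p.1 + (d + 1 - a 0), p.2)) with hU0
  set U1 : Finset (ℕ × ℕ) := (tri (a 1)).image (fun p => (p.1, p.2 + (d + 1 - a 1))) with hU1
  have hm0 : ∀ p : ℕ × ℕ, p ∈ U0 ↔ p.1 + p.2 ≤ d ∧ d < p.1 + a 0 := by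
    intro p
    rw [hU0, Finset.mem_image]
    constructor
    · rintro ⟨q, hq, rfl⟩
      rw [mem_tri] at hq
      change q.1 + (d + 1 - a 0) + q.2 ≤ d ∧ d < q.1 + (d + 1 - a 0) + a 0
      omega
    · intro hp
      refine ⟨(p.1 - (d + 1 - a 0), p.2), ?_, ?_⟩
      · rw [mem_tri]
        change p.1 - (d + 1 - a 0) + p.2 < a 0
        omega
      · ext
        · change p.1 - (d + 1 - a 0) + (d + 1 - a 0) = p.1
          omega
        · rfl
  have hm1 : ∀ p : ℕ × ℕ, p ∈ U1 ↔ p.1 + p.2 ≤ d ∧ d < p.2 + a 1 := by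
    intro p
    rw [hU1, Finset.mem_image]
    constructor
    · rintro ⟨q, hq, rfl⟩
      rw [mem_tri] at hq
      change q.1 + (q.2 + (d + 1 - a 1)) ≤ d ∧ d < q.2 + (d + 1 - a 1) + a 1
      omega
    · intro hp
      refine ⟨(p.1, p.2 - (d + 1 - a 1)), ?_, ?_⟩
      · rw [mem_tri]
        change p.1 + (p.2 - (d + 1 - a 1)) < a 1
        omega
      · ext
        · rfl
        · change p.2 - (d + 1 - a 1) + (d + 1 - a 1) = p.2
          omega
  have hc0 : U0.card = (a 0 + 1).choose 2 := by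
    rw [hU0, Finset.card_image_of_injective, card_tri]
    intro p q h
    rw [Prod.mk.injEq] at h
    ext
    · omega
    · exact h.2
  have hc1 : U1.card = (a 1 + 1).choose 2 := by
    rw [hU1, Finset.card_image_of_injective, card_tri]
    intro p q h
    rw [Prod.mk.injEq] at h
    ext
    · exact h.1
    · omega
  have hun : tri (d + 1) = hex d a ∪ (U0 ∪ (U1 ∪ tri (a 2))) := by
    ext p
    rw [Finset.mem_union, Finset.mem_union, Finset.mem_union, hm0, hm1, mem_hex, mem_tri, mem_tri]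
    omega
  have hd1 : Disjoint U1 (tri (a 2)) := by
    rw [Finset.disjoint_left]
    intro p h1 h2
    rw [hm1] at h1
    rw [mem_tri] at h2
    omega
  have hd2 : Disjoint U0 (U1 ∪ tri (a 2)) := by
    rw [Finset.disjoint_left]
    intro p h1 h2
    rw [hm0] at h1
    rw [Finset.mem_union, hm1, mem_tri] at h2
    omega
  have hd3 : Disjoint (hex d a) (U0 ∪ (U1 ∪ tri (a 2))) := by
    rw [Finset.disjoint_left]
    intro p h1 h2
    rw [mem_hex] at h1
    rw [Finset.mem_union, Finset.mem_union, hm0, hm1, mem_tri] at h2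
    omega
  have h := card_tri (d + 1)
  rw [hun, Finset.card_union_of_disjoint hd3, Finset.card_union_of_disjoint hd2,
    Finset.card_union_of_disjoint hd1, hc0, hc1, card_tri] at h
  rw [show d + 2 = d + 1 + 1 from rfl, ← h]
  ring

/-- right piece -/
def hex1 (d : ℕ) (a : Fin 3 → ℕ) : Finset (ℕ × ℕ) := (hex d a).filter (fun p => a 1 ≤ p.1)

/-- left piece -/
def hex2 (d : ℕ) (a : Fin 3 → ℕ) : Finset (ℕ × ℕ) := (hex d a).filter (fun p => p.1 < a 1)

private theorem mem_row {P : Finset (ℕ × ℕ)} {i j : ℕ} : i ∈ rowOf P j ↔ (i, j) ∈ P := by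
  unfold rowOf
  rw [Finset.mem_image]
  constructor
  · rintro ⟨p, hp, rfl⟩
    rw [Finset.mem_filter] at hp
    obtain ⟨hp1, rfl⟩ := hp
    exact hp1
  · intro h
    exact ⟨(i, j), Finset.mem_filter.2 ⟨h, rfl⟩, rfl⟩

private theorem card_row {P : Finset (ℕ × ℕ)} {j : ℕ} :
    (rowOf P j).card = (P.filter (fun p => p.2 = j)).card := by
  unfold rowOf
  apply Finset.card_image_of_injOn
  intro p hp q hq h
  have hp' := (Finset.mem_filter.1 hp).2
  have hq' := (Finset.mem_filter.1 hq).2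
  exact Prod.ext h (hp'.trans hq'.symm)

theorem card_row1 {d : ℕ} {a : Fin 3 → ℕ} (ha : ∑ t, a t ≤ d) {b : ℕ} (hb : b < d - a 1 + 1) :
    (rowOf (hex1 d a) (d - a 1 + 1 - 1 - b)).card =
      sh (d - a 1 + 1) (d - a 2 - a 0 + 1) (min (d - a 0 - a 1 + 1) (d - a 2 + 1)) b := by
  rw [Fin.sum_univ_three] at ha
  have h1 : rowOf (hex1 d a) (d - a 1 + 1 - 1 - b) =
      Finset.Icc (max (a 1) (a 2 - (d - a 1 - b))) (min (d - a 0) (d - (d - a 1 - b))) := by
    ext i
    rw [mem_row, Finset.mem_Icc]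
    unfold hex1
    rw [Finset.mem_filter, mem_hex]
    change ((i + a 0 ≤ d ∧ d - a 1 + 1 - 1 - b + a 1 ≤ d ∧ a 2 ≤ i + (d - a 1 + 1 - 1 - b) ∧
      i + (d - a 1 + 1 - 1 - b) ≤ d) ∧ a 1 ≤ i) ↔ _
    omega
  rw [h1, Nat.card_Icc]
  unfold sh
  omega

theorem card_row2 {d : ℕ} {a : Fin 3 → ℕ} (ha : ∑ t, a t ≤ d) (h12 : a 1 ≤ a 2) {b : ℕ}
    (hb : b < d - a 2) :
    (rowOf (hex2 d a) (a 2 - a 1 + 1 + b)).card = sh (d - a 2) (a 1) (a 1) b := by
  rw [Fin.sum_univ_three] at ha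
  have h1 : rowOf (hex2 d a) (a 2 - a 1 + 1 + b) = Finset.Ico (a 1 - 1 - b) (a 1) := by
    ext i
    rw [mem_row, Finset.mem_Ico]
    unfold hex2
    rw [Finset.mem_filter, mem_hex]
    change ((i + a 0 ≤ d ∧ a 2 - a 1 + 1 + b + a 1 ≤ d ∧ a 2 ≤ i + (a 2 - a 1 + 1 + b) ∧
      i + (a 2 - a 1 + 1 + b) ≤ d) ∧ i < a 1) ↔ _
    omega
  rw [h1, Nat.card_Ico]
  unfold sh
  omega

theorem row2_range {d : ℕ} {a : Fin 3 → ℕ} (ha : ∑ t, a t ≤ d) (h12 : a 1 ≤ a 2) :
    ∀ p ∈ hex2 d a, a 2 - a 1 + 1 ≤ p.2 ∧ p.2 < a 2 - a 1 + 1 + (d - a 2) := by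
  intro p hp
  rw [Fin.sum_univ_three] at ha
  unfold hex2 at hp
  rw [Finset.mem_filter, mem_hex] at hp
  omega

theorem row1_range {d : ℕ} {a : Fin 3 → ℕ} : ∀ p ∈ hex1 d a, p.2 < d - a 1 + 1 := by
  intro p hp
  unfold hex1 at hp
  rw [Finset.mem_filter, mem_hex] at hp
  omega

theorem card_hex1 {d : ℕ} {a : Fin 3 → ℕ} (ha : ∑ t, a t ≤ d) :
    (hex1 d a).card = ∑ b ∈ Finset.range (d - a 1 + 1),
      sh (d - a 1 + 1) (d - a 2 - a 0 + 1) (min (d - a 0 - a 1 + 1) (d - a 2 + 1)) b := by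
  have h1 := Finset.card_eq_sum_card_fiberwise (s := hex1 d a)
    (t := Finset.range (d - a 1 + 1)) (f := fun p => d - a 1 - p.2) (by
      intro p hp
      have := row1_range p hp
      change d - a 1 - p.2 ∈ (Finset.range (d - a 1 + 1) : Set ℕ)
      rw [Finset.coe_range, Set.mem_Iio]
      omega)
  rw [h1]
  apply Finset.sum_congr rfl
  intro b hb
  rw [← card_row1 ha (Finset.mem_range.1 hb), card_row]
  congr 1
  apply Finset.filter_congr
  intro p hp
  have := row1_range p hp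
  have := Finset.mem_range.1 hb
  omega

theorem card_hex2 {d : ℕ} {a : Fin 3 → ℕ} (ha : ∑ t, a t ≤ d) (h12 : a 1 ≤ a 2) :
    (hex2 d a).card = ∑ b ∈ Finset.range (d - a 2), sh (d - a 2) (a 1) (a 1) b := by
  have h1 := Finset.card_eq_sum_card_fiberwise (s := hex2 d a)
    (t := Finset.range (d - a 2)) (f := fun p => p.2 - (a 2 - a 1 + 1)) (by
      intro p hp
      have := row2_range ha h12 p hp
      change p.2 - (a 2 - a 1 + 1) ∈ (Finset.range (d - a 2) : Set ℕ)
      rw [Finset.coe_range, Set.mem_Iio]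
      omega)
  rw [h1]
  apply Finset.sum_congr rfl
  intro b hb
  rw [← card_row2 ha h12 (Finset.mem_range.1 hb), card_row]
  congr 1
  apply Finset.filter_congr
  intro p hp
  have := row2_range ha h12 p hp
  have := Finset.mem_range.1 hb
  omega

end Pool.Agent.Lib.MP_6b2d39_agWin
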