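import Pool.Agent.Lib.MP_6b2d39_agWin.CertExt
import Pool.Agent.Lib.MP_6b2d39_agWin.Exact

set_option autoImplicit false

namespace Pool.Agent.Lib.MP_6b2d39_agWin

open Pool.Agent.Lib.MP_6b2d39_agArr

theorem sum_sh_le (T c0 c1 μ L : ℕ) (hL : L ≤ 3 * μ) :
    ∑ b ∈ Finset.range L, sh T c0 c1 b ≤ 6 * μ ^ 2 := by
  have h1 : ∑ b ∈ Finset.range L, sh T c0 c1 b ≤ ∑ b ∈ Finset.range (3 * μ), (b + 1) := by
    calc ∑ b ∈ Finset.range L, sh T c0 c1 b ≤ ∑ b ∈ Finset.range L, (b + 1) :=
          Finset.sum_le_sum fun b _ => min_le_left _ _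
      _ ≤ _ := Finset.sum_le_sum_of_subset (Finset.range_mono hL)
  refine h1.trans ?_
  have h2 : ∀ n : ℕ, 2 * ∑ b ∈ Finset.range n, (b + 1) = n * (n + 1) := by
    intro n
    induction n with
    | zero => simp
    | succ n ih =>
      rw [Finset.sum_range_succ, mul_add, ih]
      ring
  have h3 := h2 (3 * μ)
  rcases Nat.eq_zero_or_pos μ with h | h
  · subst h; simp
  · nlinarith

theorem pos_sum {μ T c0 c1 L L' : ℕ} {X X' ρ : ℕ → ℕ} {m : ℕ} (hL : L' ≤ L)
    (hst : St μ T c0 c1 L' X')
    (h1 : ∀ b < L', X' b = X b + (m - ρ b))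
    (h2 : ∀ b, L' ≤ b → b < L → sh T c0 c1 b = X b + (m - ρ b))
    (h3 : ∑ b ∈ Finset.range L, (m - ρ b) = (m + 1).choose 2) :
    ∑ b ∈ Finset.range L, (sh T c0 c1 b - X b) =
      ∑ b ∈ Finset.range L', (sh T c0 c1 b - X' b) + (m + 1).choose 2 := by
  rw [← h3]
  obtain ⟨t, rfl⟩ := Nat.exists_eq_add_of_le hL
  rw [Finset.sum_range_add, Finset.sum_range_add, ← add_assoc, ← Finset.sum_add_distrib]
  congr 1
  · refine Finset.sum_congr rfl fun b hb => ?_
    rw [Finset.mem_range] at hb
    have h4 := h1 b hb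
    have h5 := hst.le b hb
    omega
  · refine Finset.sum_congr rfl fun b hb => ?_
    rw [Finset.mem_range] at hb
    have h4 := h2 (L' + b) (by omega) (by omega)
    omega

theorem pos_ind {ι : Type} [DecidableEq ι] {m : ι → ℕ} {μ T c0 c1 : ℕ} (hc0 : μ ≤ c0)
    (hc1 : μ ≤ c1) {U : Finset ι} (hU : ∀ j ∈ U, m j = 1) :
    ∀ (k : ℕ) (J : Finset ι) (L : ℕ) (X : ℕ → ℕ), J.card + L = k → L ≤ T → Disjoint J U →
      (∀ j ∈ J, m j ≤ μ) → St μ T c0 c1 L X →
      (mass m J = 0 ∨ mass m J + 6 * μ ^ 2 ≤ ∑ b ∈ Finset.range L, (sh T c0 c1 b - X b)) →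
      ∑ b ∈ Finset.range L, (sh T c0 c1 b - X b) ≤ mass m J + U.card →
      Cert m (J ∪ U) L (fun b => (sh T c0 c1 b : ℤ) - X b) := by
  intro k
  induction k using Nat.strong_induction_on with
  | _ k ih =>
  intro J L X hk hLT hdis hJ hst hlow hup
  by_cases h0 : mass m J = 0
  · rw [h0, zero_add] at hup
    refine cert_mono Finset.subset_union_right (cert_simple hU hup) ?_
    intro b _
    omega
  · have hlow' := hlow.resolve_left h0
    have hL : 3 * μ < L := by
      by_contra hcon
      push Not at hcon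
      have h1 := sum_sh_le T c0 c1 μ L hcon
      have h2 : ∑ b ∈ Finset.range L, (sh T c0 c1 b - X b) ≤
          ∑ b ∈ Finset.range L, sh T c0 c1 b :=
        Finset.sum_le_sum fun b _ => Nat.sub_le _ _
      omega
    obtain ⟨L1, rfl⟩ : ∃ L1, L = L1 + 1 := ⟨L - 1, by omega⟩
    by_cases hfr : X L1 < sh T c0 c1 L1
    · have hex : ∃ j ∈ J, 1 ≤ m j := by
        by_contra hcon
        push Not at hcon
        apply h0
        unfold mass
        refine Finset.sum_eq_zero fun j hj => ?_
        have h0 : m j = 0 := by have := hcon j hj; omega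
        rw [h0]; rfl
      obtain ⟨j, hjJ, hj1⟩ := hex
      obtain ⟨L', X', ρ, hL', hst', hρ, hinj, hanti, h1, h2, h3⟩ :=
        exact_step hc0 hc1 (by omega : 3 * μ ≤ L1 + 1) hLT hj1 (hJ j hjJ) hst
          (by simpa using hfr)
      have hs := pos_sum hL' hst' h1 h2 h3
      have hm : mass m J = mass m (J.erase j) + (m j + 1).choose 2 := by
        unfold mass
        exact (Finset.sum_erase_add J (fun j => (m j + 1).choose 2) hjJ).symm
      have hcard := Finset.card_erase_of_mem hjJ
      have hcpos : 0 < J.card := Finset.card_pos.mpr ⟨j, hjJ⟩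
      have hdis' : Disjoint (J.erase j) U := hdis.mono_left (Finset.erase_subset _ _)
      have hrec := ih ((J.erase j).card + L') (by omega) (J.erase j) L' X' rfl (hL'.trans hLT)
        hdis' (fun i hi => hJ i (Finset.mem_of_mem_erase hi)) hst' (Or.inr (by omega))
        (by omega)
      have hjU : j ∉ J.erase j ∪ U := by
        rw [Finset.mem_union, not_or]
        exact ⟨Finset.notMem_erase j J, fun h => (Finset.disjoint_left.mp hdis) hjJ h⟩
      have := cert_stepA hjU hL' (D := fun b => (sh T c0 c1 b : ℤ) - X b)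
        hrec ρ hρ hinj hanti ?_ ?_
      · rwa [← Finset.insert_union, Finset.insert_erase hjJ] at this
      · intro b hb
        have h4 := h1 b hb
        rw [h4]
        push_cast
        linarith
      · intro b hb hb'
        have h4 := h2 b hb hb'
        rw [h4]
        push_cast
        linarith
    · have hz : sh T c0 c1 L1 - X L1 = 0 := by omega
      have hrec := ih (J.card + L1) (by omega) J L1 X rfl (by omega) hdis hJ
        ⟨fun b hb => hst.le b (by omega), fun b hb => hst.t1 b (by omega),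
          fun b hb => hst.t0 b (by omega), fun b hb => hst.t2 b (by omega)⟩ (by
          rw [Finset.sum_range_succ, hz, add_zero] at hlow'
          exact Or.inr hlow') (by
          rw [Finset.sum_range_succ, hz, add_zero] at hup
          exact hup)
      refine cert_extend (by omega) hrec ?_
      intro b hb1 hb2
      have hb : b = L1 := by omega
      subst hb
      have : (sh T c0 c1 b : ℤ) ≤ X b := by
        exact_mod_cast not_lt.mp hfr
      linarith

theorem piece_pos {ι : Type} [DecidableEq ι] {m : ι → ℕ} {μ T c0 c1 : ℕ} (hc0 : μ ≤ c0)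
    (hc1 : μ ≤ c1) {J U : Finset ι} (hJU : Disjoint J U) (hJ : ∀ j ∈ J, m j ≤ μ)
    (hU : ∀ j ∈ U, m j = 1)
    (hmass : mass m J = 0 ∨ mass m J + 6 * μ ^ 2 ≤ ∑ b ∈ Finset.range T, sh T c0 c1 b)
    (htot : ∑ b ∈ Finset.range T, sh T c0 c1 b ≤ mass m J + U.card) :
    Cert m (J ∪ U) T (fun b => (sh T c0 c1 b : ℤ)) := by
  have h := pos_ind hc0 hc1 hU (J.card + T) J T (fun _ => 0) rfl le_rfl hJU hJ
    ⟨fun b _ => Nat.zero_le _, fun b _ h => by omega, fun b _ _ => rfl, fun b _ h => by omega⟩
    (by simpa using hmass) (by simpa using htot)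
  simpa using h

end Pool.Agent.Lib.MP_6b2d39_agWin
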