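import Pool.Agent.Lib.MP_6b2d39_agWin.PieceNeg
import Pool.Agent.Lib.MP_6b2d39_agWin.PiecePos
import Pool.Agent.Lib.MP_6b2d39_agWin.Cut
import Pool.Agent.Lib.MP_6b2d39_agWin.Hex
import Pool.Agent.Lib.MP_6b2d39_agWin.Split

set_option autoImplicit false

namespace Pool.Agent.Lib.MP_6b2d39_agWin

private theorem hex_union (d : ℕ) (a : Fin 3 → ℕ) : hex1 d a ∪ hex2 d a = hex d a := by
  unfold hex1 hex2
  have h1 : (hex d a).filter (fun p => p.1 < a 1) = (hex d a).filter (fun p => ¬ a 1 ≤ p.1) := by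
    apply Finset.filter_congr
    intro p _
    exact not_le.symm
  rw [h1]
  exact Finset.filter_union_filter_not_eq _ _

private theorem hex_card (d : ℕ) (a : Fin 3 → ℕ) :
    (hex1 d a).card + (hex2 d a).card = (hex d a).card := by
  unfold hex1 hex2
  have h1 : (hex d a).filter (fun p => p.1 < a 1) = (hex d a).filter (fun p => ¬ a 1 ≤ p.1) := by
    apply Finset.filter_congr
    intro p _
    exact not_le.symm
  rw [h1]
  exact Finset.card_filter_add_card_filter_not _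

private theorem cut_hex {ι : Type} [Fintype ι] [DecidableEq ι] {m : ι → ℕ} {d : ℕ}
    {a : Fin 3 → ℕ} {μ : ℕ} (ha : ∑ t, a t ≤ d) (h12 : a 1 ≤ a 2) {G H K : Finset ι}
    (hGH : Disjoint G H) (hK : G ∪ H = K)
    (h1 : Pool.Agent.Lib.MP_6b2d39_agArr.Cert m G (d - a 1 + 1) (fun b =>
      (sh (d - a 1 + 1) (d - a 2 - a 0 + 1) (min (d - a 0 - a 1 + 1) (d - a 2 + 1)) b : ℤ)))
    (h2 : Pool.Agent.Lib.MP_6b2d39_agArr.Cert m H (d - a 2) (fun b =>
      (sh (d - a 2) (a 1) (a 1) b : ℤ))) :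
    EmpP (hex d a) m K := by
  have e1 : EmpP (hex1 d a) m G :=
    empP_of_cert_down h1 (fun b hb => by rw [card_row1 ha hb]) row1_range
  have e2 : EmpP (hex2 d a) m H :=
    empP_of_cert_up (c := a 2 - a 1 + 1) h2 (fun b hb => by rw [card_row2 ha h12 hb])
      (row2_range ha h12)
  have e3 := EmpP.cut hGH e1 e2 (a 1) (fun p hp => (Finset.mem_filter.mp hp).2)
    (fun p hp => (Finset.mem_filter.mp hp).2)
  rwa [hex_union, hK] at e3

theorem hex_neg {ι : Type} [Fintype ι] [DecidableEq ι] {m : ι → ℕ} {μ d : ℕ} {a : Fin 3 → ℕ}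
    (hμ : 1 ≤ μ) (ha : ∑ t, a t ≤ d) (haμ : ∀ t, μ ≤ a t) (h12 : a 1 ≤ a 2) {J : Finset ι}
    (hJ : ∀ j ∈ J, m j ≤ μ) (hmass : (hex d a).card + 7 * μ ^ 2 ≤ mass m J) :
    EmpP (hex d a) m J := by
  have hsum : a 0 + a 1 + a 2 ≤ d := by
    rw [Fin.sum_univ_three] at ha
    exact ha
  have m0 := haμ 0
  have m1 := haμ 1
  have m2 := haμ 2
  have hc := hex_card d a
  obtain ⟨G, hG, hA, hB⟩ := split_neg hJ (A := (hex1 d a).card + 3 * μ ^ 2)
    (B := (hex2 d a).card + 3 * μ ^ 2) (by omega)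
  refine cut_hex (μ := μ) ha h12 (G := G) (H := J \ G) Finset.disjoint_sdiff
    (Finset.union_sdiff_of_subset hG) ?_ ?_
  · refine piece_neg (μ := μ) (by omega) (by omega) (fun j hj => hJ j (hG hj)) ?_
    rw [← card_hex1 ha]
    exact hA
  · refine piece_neg (μ := μ) (by omega) (by omega)
      (fun j hj => hJ j (Finset.sdiff_subset hj)) ?_
    rw [← card_hex2 ha h12]
    exact hB

theorem hex_pos {ι : Type} [Fintype ι] [DecidableEq ι] {m : ι → ℕ} {μ d : ℕ} {a : Fin 3 → ℕ}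
    (hμ : 1 ≤ μ) (ha : ∑ t, a t ≤ d) (haμ : ∀ t, μ ≤ a t) (h12 : a 1 ≤ a 2) {J U : Finset ι}
    (hJU : Disjoint J U) (hJ : ∀ j ∈ J, m j ≤ μ) (hU : ∀ j ∈ U, m j = 1)
    (hmass : mass m J + 13 * μ ^ 2 ≤ (hex d a).card)
    (htot : (hex d a).card ≤ mass m J + U.card) : EmpP (hex d a) m (J ∪ U) := by
  have hsum : a 0 + a 1 + a 2 ≤ d := by
    rw [Fin.sum_univ_three] at ha
    exact ha
  have m0 := haμ 0
  have m1 := haμ 1
  have m2 := haμ 2
  have hc := hex_card d a
  obtain ⟨G, hG, hA, hB⟩ := split_pos hJ (A := (hex1 d a).card - 6 * μ ^ 2)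
    (B := (hex2 d a).card - 6 * μ ^ 2) (by omega)
  have hms : mass m (J \ G) + mass m G = mass m J := by
    unfold mass
    exact Finset.sum_sdiff hG
  obtain ⟨U1, hU1, hU1c⟩ := Finset.exists_subset_card_eq
    (s := U) (n := (hex1 d a).card - mass m G) (by omega)
  have hU2c : (U \ U1).card = U.card - U1.card := Finset.card_sdiff_of_subset hU1
  refine cut_hex (μ := μ) ha h12 (G := G ∪ U1) (H := (J \ G) ∪ (U \ U1)) ?_ ?_ ?_ ?_
  · rw [Finset.disjoint_left]
    intro x hx hx'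
    rw [Finset.mem_union] at hx hx'
    rcases hx with hx | hx <;> rcases hx' with hx' | hx'
    · exact (Finset.mem_sdiff.mp hx').2 hx
    · exact Finset.disjoint_left.mp hJU (hG hx) (Finset.sdiff_subset hx')
    · exact Finset.disjoint_left.mp hJU (Finset.sdiff_subset hx') (hU1 hx)
    · exact (Finset.mem_sdiff.mp hx').2 hx
  · rw [Finset.union_union_union_comm, Finset.union_sdiff_of_subset hG,
      Finset.union_sdiff_of_subset hU1]
  · refine piece_pos (μ := μ) (by omega) (by omega) ?_ (fun j hj => hJ j (hG hj))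
      (fun j hj => hU j (hU1 hj)) ?_ ?_
    · exact Finset.disjoint_of_subset_left hG (Finset.disjoint_of_subset_right hU1 hJU)
    · rw [← card_hex1 ha]
      omega
    · rw [← card_hex1 ha, hU1c]
      omega
  · refine piece_pos (μ := μ) (by omega) (by omega) ?_
      (fun j hj => hJ j (Finset.sdiff_subset hj)) (fun j hj => hU j (Finset.sdiff_subset hj)) ?_ ?_
    · exact Finset.disjoint_of_subset_left Finset.sdiff_subset
        (Finset.disjoint_of_subset_right Finset.sdiff_subset hJU)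
    · rw [← card_hex2 ha h12]
      omega
    · rw [← card_hex2 ha h12, hU2c, hU1c]
      omega

end Pool.Agent.Lib.MP_6b2d39_agWin
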