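import Pool.Agent.Lib.MP_6b2d39_agWin.Crude

set_option autoImplicit false

namespace Pool.Agent.Lib.MP_6b2d39_agWin

open Pool.Agent.Lib.MP_6b2d39_agArr

theorem neg_sum {μ T c0 c1 L L' : ℕ} {X X' ρ : ℕ → ℕ} {m : ℕ} (hL : L' ≤ L)
    (hst : St μ T c0 c1 L' X')
    (h1 : ∀ b < L', X' b = X b + (m - ρ b))
    (h2 : ∀ b, L' ≤ b → b < L → sh T c0 c1 b = X b + (m - ρ b))
    (h3 : ∑ b ∈ Finset.range L, (m - ρ b) = (m + 1).choose 2) :
    ∑ b ∈ Finset.range L, (sh T c0 c1 b - X b) =
      ∑ b ∈ Finset.range L', (sh T c0 c1 b - X' b) + (m + 1).choose 2 := by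
  rw [← h3]
  obtain ⟨t, rfl⟩ := Nat.exists_eq_add_of_le hL
  rw [Finset.sum_range_add, Finset.sum_range_add, ← add_assoc, ← Finset.sum_add_distrib]
  congr 1
  · refine Finset.sum_congr rfl fun b hb => ?_
    rw [Finset.mem_range] at hb
    have h4 := h1 b hb
    have h5 := hst.le b hb
    omega
  · refine Finset.sum_congr rfl fun b hb => ?_
    rw [Finset.mem_range] at hb
    have h4 := h2 (L' + b) (by omega) (by omega)
    omega

theorem mass_erase {ι : Type} [DecidableEq ι] {m : ι → ℕ} {J : Finset ι} {j : ι} (hj : j ∈ J) :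
    mass m J = mass m (J.erase j) + (m j + 1).choose 2 := by
  unfold mass
  exact (Finset.sum_erase_add J (fun j => (m j + 1).choose 2) hj).symm

theorem exists_mass_pos {ι : Type} [DecidableEq ι] {m : ι → ℕ} {J : Finset ι}
    (h : 0 < mass m J) : ∃ j ∈ J, 1 ≤ m j := by
  unfold mass at h
  by_contra hcon
  push Not at hcon
  have : ∑ j ∈ J, (m j + 1).choose 2 = 0 := by
    refine Finset.sum_eq_zero fun j hj => ?_
    have h0 : m j = 0 := by have := hcon j hj; omega
    rw [h0]; rfl
  omega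

theorem St.pred {μ T c0 c1 L : ℕ} {X : ℕ → ℕ} (h : St μ T c0 c1 (L + 1) X) :
    St μ T c0 c1 L X :=
  ⟨fun b hb => h.le b (by omega), fun b hb => h.t1 b (by omega), fun b hb => h.t0 b (by omega),
    fun b hb => h.t2 b (by omega)⟩

theorem neg_ind {ι : Type} [DecidableEq ι] {m : ι → ℕ} {μ T c0 c1 : ℕ} (hc0 : μ ≤ c0)
    (hc1 : μ ≤ c1) :
    ∀ (k : ℕ) (J : Finset ι) (L : ℕ) (X : ℕ → ℕ), J.card + L = k → L ≤ T → (∀ j ∈ J, m j ≤ μ) →
      St μ T c0 c1 L X →
      ∑ b ∈ Finset.range L, (sh T c0 c1 b - X b) + 3 * μ ^ 2 ≤ mass m J →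
      Cert m J L (fun b => (sh T c0 c1 b : ℤ) - X b) := by
  intro k
  induction k using Nat.strong_induction_on with
  | _ k ih =>
  intro J L X hk hLT hJ hst hmass
  by_cases hL : L ≤ 3 * μ
  · -- crude
    refine crude k J L X hk hLT hJ ⟨fun b hb => ?_, hst.t1, hst.t0⟩ ?_
    · have := hst.le b hb
      omega
    · refine le_trans ?_ hmass
      have h1 : ∑ b ∈ Finset.range L, (sh T c0 c1 b + μ - X b) =
          ∑ b ∈ Finset.range L, (sh T c0 c1 b - X b) + L * μ := by
        have h0 : L * μ = ∑ _b ∈ Finset.range L, μ := by simp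
        rw [h0, ← Finset.sum_add_distrib]
        refine Finset.sum_congr rfl fun b hb => ?_
        have := hst.le b (Finset.mem_range.mp hb)
        omega
      rw [h1]
      have h2 : L * μ ≤ 3 * μ * μ := Nat.mul_le_mul_right _ hL
      nlinarith
  · push Not at hL
    obtain ⟨L1, rfl⟩ : ∃ L1, L = L1 + 1 := ⟨L - 1, by omega⟩
    by_cases hfr : X L1 < sh T c0 c1 L1
    · have hpos : 0 < mass m J := by
        rw [Finset.sum_range_succ] at hmass
        omega
      obtain ⟨j, hjJ, hj1⟩ := exists_mass_pos hpos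
      obtain ⟨L', X', ρ, hL', hst', hρ, hinj, hanti, h1, h2, h3⟩ :=
        exact_step hc0 hc1 (by omega : 3 * μ ≤ L1 + 1) hLT hj1 (hJ j hjJ) hst
          (by simpa using hfr)
      have hs := neg_sum hL' hst' h1 h2 h3
      have hm := mass_erase (m := m) hjJ
      have hcard := Finset.card_erase_of_mem hjJ
      have hcpos : 0 < J.card := Finset.card_pos.mpr ⟨j, hjJ⟩
      have hrec := ih ((J.erase j).card + L') (by omega) (J.erase j) L' X' rfl (hL'.trans hLT)
        (fun i hi => hJ i (Finset.mem_of_mem_erase hi)) hst' (by omega)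
      have := cert_stepA (Finset.notMem_erase j J) hL' (D := fun b => (sh T c0 c1 b : ℤ) - X b)
        hrec ρ hρ hinj hanti ?_ ?_
      · rwa [Finset.insert_erase hjJ] at this
      · intro b hb
        have h4 := h1 b hb
        rw [h4]
        push_cast
        linarith
      · intro b hb hb'
        have h4 := h2 b hb hb'
        rw [h4]
        push_cast
        linarith
    · have hrec := ih (J.card + L1) (by omega) J L1 X rfl (by omega) hJ hst.pred (by
        rw [Finset.sum_range_succ] at hmass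
        omega)
      refine cert_extend (by omega) hrec ?_
      intro b hb1 hb2
      have hb : b = L1 := by omega
      subst hb
      have : (sh T c0 c1 b : ℤ) ≤ X b := by
        exact_mod_cast not_lt.mp hfr
      linarith

theorem piece_neg {ι : Type} [DecidableEq ι] {m : ι → ℕ} {μ T c0 c1 : ℕ} (hc0 : μ ≤ c0)
    (hc1 : μ ≤ c1) {J : Finset ι} (hJ : ∀ j ∈ J, m j ≤ μ)
    (hmass : ∑ b ∈ Finset.range T, sh T c0 c1 b + 3 * μ ^ 2 ≤ mass m J) :
    Cert m J T (fun b => (sh T c0 c1 b : ℤ)) := by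
  have h := neg_ind hc0 hc1 (J.card + T) J T (fun _ => 0) rfl le_rfl hJ
    ⟨fun b _ => Nat.zero_le _, fun b _ h => by omega, fun b _ _ => rfl, fun b _ h => by omega⟩
    (by simpa using hmass)
  simpa using h

end Pool.Agent.Lib.MP_6b2d39_agWin
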