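import Mathlib

set_option autoImplicit false

namespace Pool.Agent.Lib.MP_6b2d39_agWin

/-- the three largest values, the smallest of them in position `1`; the position `0` holds the
largest one -/
theorem exists_heavy {h : ℕ} (hh : 3 ≤ h) (n : Fin h → ℕ) :
    ∃ τ : Fin 3 ↪ Fin h, n (τ 1) ≤ n (τ 2) ∧ n (τ 2) ≤ n (τ 0) ∧
      ∀ l, (¬ ∃ t, τ t = l) → n l ≤ n (τ 1) := by
  classical
  have hne0 : (Finset.univ : Finset (Fin h)).Nonempty :=
    ⟨⟨0, by omega⟩, Finset.mem_univ _⟩
  obtain ⟨i0, -, h0⟩ := Finset.exists_max_image Finset.univ n hne0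
  have hne1 : ((Finset.univ : Finset (Fin h)).erase i0).Nonempty := by
    rw [← Finset.card_pos, Finset.card_erase_of_mem (Finset.mem_univ _), Finset.card_univ,
      Fintype.card_fin]
    omega
  obtain ⟨i2, hi2, h2⟩ := Finset.exists_max_image _ n hne1
  have hne2 : (((Finset.univ : Finset (Fin h)).erase i0).erase i2).Nonempty := by
    rw [← Finset.card_pos, Finset.card_erase_of_mem hi2,
      Finset.card_erase_of_mem (Finset.mem_univ _), Finset.card_univ, Fintype.card_fin]
    omega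
  obtain ⟨i1, hi1, h1⟩ := Finset.exists_max_image _ n hne2
  have h20 : i2 ≠ i0 := (Finset.mem_erase.mp hi2).1
  have h12 : i1 ≠ i2 := (Finset.mem_erase.mp hi1).1
  have h10 : i1 ≠ i0 := (Finset.mem_erase.mp (Finset.mem_erase.mp hi1).2).1
  refine ⟨⟨![i0, i1, i2], ?_⟩, ?_, ?_, ?_⟩
  · intro a b hab
    fin_cases a <;> fin_cases b <;> simp_all [eq_comm]
  · show n i1 ≤ n i2
    exact h2 i1 (Finset.mem_erase.mpr ⟨h10, Finset.mem_univ _⟩)
  · show n i2 ≤ n i0
    exact h0 i2 (Finset.mem_univ _)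
  · intro l hl
    show n l ≤ n i1
    apply h1
    rw [Finset.mem_erase, Finset.mem_erase]
    refine ⟨fun h => hl ⟨2, h.symm⟩, fun h => hl ⟨0, h.symm⟩, Finset.mem_univ _⟩

/-- if all but three values are at most `μ`, the light ones are -/
theorem light_le {h : ℕ} {n : Fin h → ℕ} {τ : Fin 3 ↪ Fin h}
    (hτ : ∀ l, (¬ ∃ t, τ t = l) → ∀ t, n l ≤ n (τ t)) {μ : ℕ}
    (hcard : (Finset.univ.filter (fun i => μ < n i)).card ≤ 3) :
    ∀ l, (¬ ∃ t, τ t = l) → n l ≤ μ := by
  classical
  intro l hl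
  by_contra hc
  push Not at hc
  have h1 : insert l (Finset.univ.map τ) ⊆ Finset.univ.filter (fun i => μ < n i) := by
    intro i hi
    rw [Finset.mem_insert] at hi
    rw [Finset.mem_filter]
    refine ⟨Finset.mem_univ _, ?_⟩
    rcases hi with rfl | hi
    · exact hc
    · obtain ⟨t, -, rfl⟩ := Finset.mem_map.mp hi
      exact lt_of_lt_of_le hc (hτ l hl t)
  have h2 := Finset.card_le_card h1
  rw [Finset.card_insert_of_notMem, Finset.card_map, Finset.card_univ, Fintype.card_fin] at h2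
  · omega
  · intro hm
    obtain ⟨t, -, ht⟩ := Finset.mem_map.mp hm
    exact hl ⟨t, ht⟩

end Pool.Agent.Lib.MP_6b2d39_agWin
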