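import Pool.Agent.Lib.MP_6b2d39_agWin.Emp
import Pool.Agent.Lib.MP_6b2d39_agWin.Lin

open Polynomial

set_option autoImplicit false

namespace Pool.Agent.Lib.MP_6b2d39_agWin

open Pool.Agent.Lib.MP_6b2d39_ag Pool.Agent.Lib.MP_6b2d39_ag.Rel

/-- the conditions -/
private abbrev Jy {ι : Type} (m : ι → ℕ) : Type := {t : ι × ℕ × ℕ // t.2.1 + t.2.2 < m t.1}

/-- the rows of the matrix of conditions -/
private def rowP {ι : Type} {m : ι → ℕ} {P : Finset (ℕ × ℕ)} {R : Type*} [CommRing R]
    (x y : ι → R) (j : Jy m) (i : P) : R :=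
  Transfer.entry (x j.1.1) (y j.1.1) j.1.2.1 j.1.2.2 i.1.1 i.1.2

private theorem map_minorP {ι : Type} {m : ι → ℕ} {P : Finset (ℕ × ℕ)} {R R' : Type*}
    [CommRing R] [CommRing R'] (φ : R →+* R') (x y : ι → R) (a : P → Jy m) :
    φ (Matrix.of fun i i' => rowP (P := P) x y (a i) i').det =
      (Matrix.of fun i i' => rowP (P := P) (fun v => φ (x v)) (fun v => φ (y v)) (a i) i').det := by
  rw [RingHom.map_det]
  congr 1
  ext i i'
  simp [rowP, Transfer.map_entry]

/-- specialisation of positions from an extension field to `ℂ` -/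
theorem empP_of_goodP {ι : Type} [Fintype ι] [DecidableEq ι] {P : Finset (ℕ × ℕ)} {m : ι → ℕ}
    {J : Finset ι} (h : GoodP ℂ P (fun i => if i ∈ J then m i else 0)) : EmpP P m J := by
  classical
  obtain ⟨K, _, φ, x, y, -, hx0, hy0, H⟩ := h
  obtain ⟨a, ha⟩ := Transfer.exists_minor (K := K) (I := P)
    (J := Jy (fun i => if i ∈ J then m i else 0)) (rowP x y) (by
      intro c hc
      have h0 : ofC c = 0 := by
        apply H _ (suppP_ofC c)
        intro v
        rw [cond_ofC_iff]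
        intro a b hab
        exact hc ⟨(v, a, b), hab⟩
      ext i
      rw [← coeff_ofC_self c i, h0]
      simp)
  let Xu : ι → MvPolynomial (ι × Fin 2) ℂ := fun v => MvPolynomial.X (v, 0)
  let Yu : ι → MvPolynomial (ι × Fin 2) ℂ := fun v => MvPolynomial.X (v, 1)
  let Ψ : MvPolynomial (ι × Fin 2) ℂ := (Matrix.of fun i i' => rowP Xu Yu (a i) i').det
  have hΨ : Ψ ≠ 0 := by
    intro h0
    apply ha
    let ev : MvPolynomial (ι × Fin 2) ℂ →+* K :=
      MvPolynomial.eval₂Hom φ (fun t => if t.2 = 0 then x t.1 else y t.1)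
    have h1 := map_minorP ev Xu Yu a
    have hx : (fun v => ev (Xu v)) = x := by
      ext v
      simp [ev, Xu]
    have hy : (fun v => ev (Yu v)) = y := by
      ext v
      simp [ev, Yu]
    rw [hx, hy] at h1
    rw [← h1]
    change ev Ψ = 0
    rw [h0, map_zero]
  have hne : Ψ * ∏ v : ι, (Xu v * Yu v) ≠ 0 := by
    apply mul_ne_zero hΨ
    rw [Finset.prod_ne_zero_iff]
    intro v _
    exact mul_ne_zero (MvPolynomial.X_ne_zero _) (MvPolynomial.X_ne_zero _)
  obtain ⟨q, hq⟩ : ∃ q, MvPolynomial.eval q (Ψ * ∏ v : ι, (Xu v * Yu v)) ≠ 0 := by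
    by_contra hcon
    push Not at hcon
    exact hne (MvPolynomial.funext fun q => by rw [hcon q, map_zero])
  rw [map_mul] at hq
  have hq1 := left_ne_zero_of_mul hq
  have hq2 := right_ne_zero_of_mul hq
  rw [map_prod, Finset.prod_ne_zero_iff] at hq2
  have hq3 : ∀ v, q (v, 0) ≠ 0 ∧ q (v, 1) ≠ 0 := by
    intro v
    have h1 := hq2 v (Finset.mem_univ v)
    rw [map_mul, MvPolynomial.eval_X, MvPolynomial.eval_X] at h1
    exact ⟨left_ne_zero_of_mul h1, right_ne_zero_of_mul h1⟩
  refine ⟨fun v => q (v, 0), fun v => q (v, 1), fun v => (hq3 v).1, fun v => (hq3 v).2, ?_⟩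
  intro f hf hc
  have h2 := map_minorP (MvPolynomial.eval q) Xu Yu a
  have hx : (fun v => MvPolynomial.eval q (Xu v)) = fun v => q (v, 0) := by
    ext v
    simp [Xu]
  have hy : (fun v => MvPolynomial.eval q (Yu v)) = fun v => q (v, 1) := by
    ext v
    simp [Yu]
  rw [hx, hy] at h2
  have hmin : (Matrix.of fun i i' => rowP (P := P) (fun v => q (v, 0)) (fun v => q (v, 1))
      (a i) i').det ≠ 0 := by
    rw [← h2]
    exact hq1
  have h3 := Transfer.eq_zero_of_minor _ a hmin (fun i : P => (f.coeff i.1.1).coeff i.1.2) (by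
    rintro ⟨⟨v, a, b⟩, hab⟩
    have hv : v ∈ J := by
      by_contra hv
      simp only [if_neg hv] at hab
      omega
    have h4 := hc v hv
    rw [eq_ofC hf, cond_ofC_iff] at h4
    apply h4 a b
    simpa only [if_pos hv] using hab)
  rw [eq_ofC hf, h3]
  rw [ofC]
  simp

end Pool.Agent.Lib.MP_6b2d39_agWin
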