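import Pool.Agent.Lib.MP_6b2d39_agWin.HexEmp
import Pool.Agent.Lib.MP_6b2d39_agWin.ToCurves
import Pool.Agent.Lib.MP_6b2d39_agWin.Sort3
import Pool.Agent.Lib.MP_6b2d39_agCr.Lower

set_option autoImplicit false

namespace Pool.Agent.Lib.MP_6b2d39_agWin

open Pool.Agent.Lib.MP_6b2d39_agCr

/-- the light points -/
theorem window_sum_split {h : ℕ} (τ : Fin 3 ↪ Fin h) (f : Fin h → ℕ) :
    ∑ l, f l = ∑ t, f (τ t) + ∑ l ∈ Finset.univ.filter (fun l => ∀ t, l ≠ τ t), f l := by
  rw [← Finset.sum_filter_add_sum_filter_not Finset.univ (fun l => ∀ t, l ≠ τ t) f, add_comm]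
  congr 1
  have h1 : Finset.univ.filter (fun l => ¬ ∀ t, l ≠ τ t) = Finset.univ.map τ := by
    ext l
    simp only [Finset.mem_filter, Finset.mem_univ, true_and, Finset.mem_map]
    push Not
    constructor
    · rintro ⟨t, ht⟩
      exact ⟨t, ht.symm⟩
    · rintro ⟨t, ht⟩
      exact ⟨t, ht.symm⟩
  rw [h1, Finset.sum_map]

theorem window_vd {h d : ℕ} {m : Fin h → ℕ} (τ : Fin 3 ↪ Fin h) (hred : ∑ t, m (τ t) ≤ d) :
    vd d m = ((hex d (fun t => m (τ t))).card : ℤ) -
      ((∑ l ∈ Finset.univ.filter (fun l => ∀ t, l ≠ τ t), (m l + 1).choose 2 : ℕ) : ℤ) := by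
  have h1 := card_hex (d := d) (a := fun t => m (τ t)) hred
  have h2 := window_sum_split τ (fun l => (m l + 1).choose 2)
  unfold vd
  have h3 : (∑ i, ((m i + 1).choose 2 : ℤ)) = ((∑ l, (m l + 1).choose 2 : ℕ) : ℤ) := by
    push_cast
    rfl
  rw [h3, h2, ← h1]
  push_cast
  ring

/-- nonspeciality of reduced systems with at most three points -/
theorem nonspecial_three {h d : ℕ} {m : Fin h → ℕ} (τ : Fin 3 ↪ Fin h)
    (h0 : ∀ l, (¬ ∃ t, τ t = l) → m l = 0) (hred : ∑ t, m (τ t) ≤ d) :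
    General (fun P => (Module.finrank ℂ (curves d m P) : ℤ) = max (vd d m) 0) := by
  obtain ⟨P₀, hP₀⟩ := exists_config_three (d := d) τ h0
  apply general_nonspecial_of_le P₀
  have h1 := window_vd τ hred
  have h2 : ∑ l ∈ Finset.univ.filter (fun l => ∀ t, l ≠ τ t), (m l + 1).choose 2 = 0 := by
    apply Finset.sum_eq_zero
    intro l hl
    rw [Finset.mem_filter] at hl
    rw [h0 l (by
      rintro ⟨t, ht⟩
      exact hl.2 t ht.symm)]
    rfl
  rw [h2] at h1
  rw [h1]
  apply le_max_of_le_left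
  push_cast
  have : (Module.finrank ℂ (curves d m P₀) : ℤ) ≤ ((hex d (fun t => m (τ t))).card : ℤ) := by
    exact_mod_cast hP₀
  linarith

/-- window theorem for given heavy points -/
theorem window_heavy {h d μ : ℕ} {m : Fin h → ℕ} (τ : Fin 3 ↪ Fin h) (hμ : 1 ≤ μ)
    (hlight : ∀ l, (¬ ∃ t, τ t = l) → m l ≤ μ) (hheavy : ∀ t, μ ≤ m (τ t))
    (h12 : m (τ 1) ≤ m (τ 2)) (hred : ∑ t, m (τ t) ≤ d)
    (hv : vd d m ≤ -(7 * (μ : ℤ) ^ 2) ∨ 13 * (μ : ℤ) ^ 2 ≤ vd d m) :
    General (fun P => (Module.finrank ℂ (curves d m P) : ℤ) = max (vd d m) 0) := by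
  have hvd := window_vd τ hred
  set H := (hex d (fun t => m (τ t))).card with hH
  set S := ∑ l ∈ Finset.univ.filter (fun l => ∀ t, l ≠ τ t), (m l + 1).choose 2 with hS
  have hJ0 : ∀ (u : ℕ) (j : Fin h ⊕ Fin u),
      j ∈ (Finset.univ.filter (fun l : Fin h => ∀ t, l ≠ τ t)).map Function.Embedding.inl →
      (Sum.elim m (fun _ => 1) : Fin h ⊕ Fin u → ℕ) j ≤ μ := by
    intro u j hj
    rw [Finset.mem_map] at hj
    obtain ⟨l, hl, rfl⟩ := hj
    rw [Finset.mem_filter] at hl
    simp only [Function.Embedding.inl_apply, Sum.elim_inl]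
    apply hlight
    rintro ⟨t, ht⟩
    exact hl.2 t ht.symm
  have hmassJ : ∀ u : ℕ, mass (Sum.elim m (fun _ => 1) : Fin h ⊕ Fin u → ℕ)
      ((Finset.univ.filter (fun l : Fin h => ∀ t, l ≠ τ t)).map Function.Embedding.inl) = S := by
    intro u
    unfold mass
    rw [Finset.sum_map]
    rfl
  have hall : ∀ u : ℕ, ((Finset.univ.filter (fun l : Fin h => ∀ t, l ≠ τ t)).map
      Function.Embedding.inl) ∪ (Finset.univ : Finset (Fin u)).map Function.Embedding.inr =
      (Finset.univ.filter (fun i : Fin h ⊕ Fin u => ∀ t, i ≠ Sum.inl (τ t))) := by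
    intro u
    ext i
    rw [Finset.mem_union, Finset.mem_map, Finset.mem_map, Finset.mem_filter]
    constructor
    · rintro (⟨l, hl, rfl⟩ | ⟨l, -, rfl⟩)
      · refine ⟨Finset.mem_univ _, fun t ht => ?_⟩
        rw [Finset.mem_filter] at hl
        exact hl.2 t (Sum.inl_injective ht)
      · refine ⟨Finset.mem_univ _, fun t ht => ?_⟩
        simp at ht
    · rintro ⟨-, hi⟩
      rcases i with l | l
      · left
        refine ⟨l, ?_, rfl⟩
        rw [Finset.mem_filter]
        refine ⟨Finset.mem_univ _, fun t ht => hi t (by rw [ht])⟩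
      · right
        exact ⟨l, Finset.mem_univ _, rfl⟩
  rcases hv with hneg | hpos
  · have hE := hex_neg (ι := Fin h ⊕ Fin 0) (m := Sum.elim m (fun _ => 1)) (d := d)
      (a := fun t => m (τ t)) hμ hred hheavy h12 (hJ0 0) (by
        rw [hmassJ 0, ← hH]
        have : ((H + 7 * μ ^ 2 : ℕ) : ℤ) ≤ (S : ℤ) := by
          push_cast
          linarith
        exact_mod_cast this)
    have h1 := hall 0
    rw [Finset.univ_eq_empty (α := Fin 0), Finset.map_empty, Finset.union_empty] at h1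
    rw [h1] at hE
    obtain ⟨P₀, hP₀⟩ := exists_config (d := d) τ hE
    apply general_nonspecial_of_le P₀
    apply le_max_of_le_right
    exact_mod_cast hP₀
  · have hSH : S ≤ H := by
      have : (S : ℤ) ≤ (H : ℤ) := by
        nlinarith [sq_nonneg (μ : ℤ)]
      exact_mod_cast this
    have hE := hex_pos (ι := Fin h ⊕ Fin (H - S)) (m := Sum.elim m (fun _ => 1)) (d := d)
      (a := fun t => m (τ t)) (U := (Finset.univ : Finset (Fin (H - S))).map Function.Embedding.inr)
      hμ hred hheavy h12 (by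
        rw [Finset.disjoint_left]
        intro i hi hi'
        rw [Finset.mem_map] at hi hi'
        obtain ⟨a, -, rfl⟩ := hi
        obtain ⟨b, -, hb⟩ := hi'
        simp at hb) (hJ0 (H - S)) (by
        intro j hj
        rw [Finset.mem_map] at hj
        obtain ⟨b, -, rfl⟩ := hj
        rfl) (by
        rw [hmassJ, ← hH]
        have : ((S + 13 * μ ^ 2 : ℕ) : ℤ) ≤ (H : ℤ) := by
          push_cast
          linarith
        exact_mod_cast this) (by
        rw [hmassJ, ← hH, Finset.card_map, Finset.card_univ, Fintype.card_fin]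
        omega)
    rw [hall] at hE
    obtain ⟨P₀, hP₀⟩ := exists_config (d := d) τ hE
    apply general_nonspecial_of_le P₀
    apply le_max_of_le_left
    rw [hvd]
    have : (Module.finrank ℂ (curves d m P₀) : ℤ) ≤ ((H - S : ℕ) : ℤ) := by
      exact_mod_cast hP₀
    rw [Nat.cast_sub hSH] at this
    exact this

/-- The window theorem for Cremona-reduced systems. -/
theorem window {h : ℕ} (hh : 3 ≤ h) {e : ℕ} {n : Fin h → ℕ} (hred : Reduced e n) {μ : ℕ}
    (hμ : 1 ≤ μ) (hcard : (Finset.univ.filter (fun i => μ < n i)).card ≤ 3)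
    (hv : vd e n ≤ -(7 * (μ : ℤ) ^ 2) ∨ 13 * (μ : ℤ) ^ 2 ≤ vd e n) :
    General (fun P => (Module.finrank ℂ (curves e n P) : ℤ) = max (vd e n) 0) := by
  obtain ⟨τ, h12, h20, hτ⟩ := exists_heavy hh n
  have hall : ∀ t, n (τ 1) ≤ n (τ t) := by
    intro t
    fin_cases t
    · exact h12.trans h20
    · exact le_rfl
    · exact h12
  have hlight : ∀ l, (¬ ∃ t, τ t = l) → n l ≤ μ :=
    light_le (τ := τ) (fun l hl t => (hτ l hl).trans (hall t)) hcard
  rcases Nat.eq_zero_or_pos (n (τ 1)) with h0 | h0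
  · apply nonspecial_three τ _ (hred τ)
    intro l hl
    have := hτ l hl
    omega
  · have hmin : ((min μ (n (τ 1)) : ℕ) : ℤ) ≤ μ := by
      exact_mod_cast min_le_left _ _
    have hmin0 : (0 : ℤ) ≤ ((min μ (n (τ 1)) : ℕ) : ℤ) := Int.natCast_nonneg _
    have hsq : ((min μ (n (τ 1)) : ℕ) : ℤ) ^ 2 ≤ (μ : ℤ) ^ 2 := by
      apply pow_le_pow_left₀ hmin0 hmin
    apply window_heavy τ (μ := min μ (n (τ 1))) (le_min hμ h0)
      (fun l hl => le_min (hlight l hl) (hτ l hl))
      (fun t => (min_le_right _ _).trans (hall t)) h12 (hred τ)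
    rcases hv with hv | hv
    · left; linarith
    · right; linarith

end Pool.Agent.Lib.MP_6b2d39_agWin
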